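import Mathlib
import Pool.Agent.Q263.IC.Def2
import Pool.Agent.Q192.FT.ADefs

/-!
# Density of Axiom A at diffeomorphisms with normally hyperbolic tori: definitions

`V n = ℝⁿ`, `DiffM n N r = Diff^r(N)` (`Pool/Agent/H718R2/G0.lean`), `Torus d`, `toTorus`, `ChainRec`
(`Pool/Agent/H728R2/OS/Defs.lean`), `emb n d x = (x, 0)`, `cyc`: the union of the tori of a cycle, `Approx`
(`Pool/Agent/Q192/FT/Defs.lean`), `TameH` (`Pool/Agent/Q192/FT/ADefs.lean`), `Tube`, `TorusCycle`
(`Pool/Agent/Q263/IC/Def.lean`), `IsHyp` (`Pool/Agent/Q263/HS/Def.lean`), `HypAt`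
(`Pool/Agent/Y504/CO/Stm2.lean`).
-/

set_option autoImplicit false

open scoped Manifold ContDiff Topology
open Set Filter Pool.Agent.H718R2.G Pool.Agent.H728R2.OS Pool.Agent.Q192.FT

universe u

namespace Q263.DH

/-- The derivative of `T : N → N` has no nonzero bounded orbits in the normal bundle of the invariant
torus `E (𝕋^d × {0})`: let `v k`, `k ∈ ℤ`, be tangent vectors of `N` at points of the torus (`x k`
and `v k` are the torus coordinates of the point and the coordinates of the vector in the tube `E`)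
such that `DT (v k)` and `v (k+1)` have the same base point and differ by the vector `t k` tangent to
the torus; if the normal coordinates `v k i`, `i ≥ d`, are bounded, they are zero. -/
def NormalHyp (n : ℕ) {N : Type u} [TopologicalSpace N] [ChartedSpace (V n) N] (T : N → N) (d : ℕ)
    (E : V n → N) : Prop :=
  ∀ (x : ℤ → Fin d → ℝ) (v : ℤ → V n) (t : ℤ → Fin d → ℝ),
    (∀ k, tangentMap (𝓡 n) (𝓡 n) T (tangentMap (𝓡 n) (𝓡 n) E ⟨emb n d (x k), v k⟩) =
      tangentMap (𝓡 n) (𝓡 n) E ⟨emb n d (x (k + 1)), v (k + 1) + emb n d (t k)⟩) →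
    (∃ C : ℝ, ∀ k, ∀ i : Fin n, d ≤ (i : ℕ) → |v k i| ≤ C) →
    ∀ k, ∀ i : Fin n, d ≤ (i : ℕ) → v k i = 0

/-- The chain recurrent set of `F` is contained in the union of a hyperbolic set `Λ₀` and of finitely
many cycles of invariant tori with tame return maps, without nonzero bounded orbits in the normal
directions, which are disjoint from each other and from `Λ₀`. -/
def NormallyCovered (n : ℕ) {N : Type u} [MetricSpace N] [ChartedSpace (V n) N]
    [IsManifold (𝓡 n) ∞ N] (r : ℕ∞) (F : DiffM n N r) (Λ₀ : Set N) : Prop :=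
  ∃ (p : ℕ) (d m : Fin p → ℕ) (E : Fin p → V n → N) (f : ∀ j, Torus (d j) ≃ₜ Torus (d j)),
    (∀ j, Q263.IC.TorusCycle n r F (d j) (m j) (E j) (f j) ∧ TameH r (f j) ∧
      NormalHyp n (F^[m j]) (d j) (E j)) ∧
    (∀ i j, i ≠ j → Disjoint (cyc n F (d i) (m i) (E i)) (cyc n F (d j) (m j) (E j))) ∧
    (∀ j, Disjoint Λ₀ (cyc n F (d j) (m j) (E j))) ∧
    ChainRec F.toHomeomorph ⊆ Λ₀ ∪ ⋃ j, cyc n F (d j) (m j) (E j)

/-! ### statements of the parts -/

/-- PERT: small perturbations along a tube of class `C^r`, with a given approximation of the return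
map on the core, which are trivial on a given closed set disjoint from the core. -/
def S_PERT : Prop :=
  ∀ (n d : ℕ) (N : Type u) [TopologicalSpace N] [T2Space N] [CompactSpace N]
    [ChartedSpace (V n) N] [IsManifold (𝓡 n) ∞ N] (r : ℕ∞), 1 ≤ r → d ≤ n →
    ∀ E : V n → N, Q263.IC.Tube n d r E →
    ∀ (f : Torus d ≃ₜ Torus d) (P : (Torus d ≃ₜ Torus d) → Prop), Approx r f P →
    ∀ (F : DiffM n N r) (U : Set (DiffM n N r)), IsOpen[strongTop n N r] U → F ∈ U →
    ∀ Z : Set N, IsClosed Z → (∀ x, E (emb n d x) ∉ Z) → ∀ ε : ℝ, 0 < ε →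
    ∃ (τ : V n → Fin d → ℝ) (g : Torus d ≃ₜ Torus d) (Ψ : DiffM n N r),
      ContDiff ℝ 1 τ ∧ (∀ v, ‖τ v‖ ≤ ε) ∧ P g ∧
      (∀ x, g (toTorus x) = f (toTorus (x + τ (emb n d x)))) ∧
      (∀ v, Ψ (E v) = E (v + emb n d (τ v))) ∧ (∀ y ∈ Z, Ψ y = y) ∧ Ψ.trans F ∈ U

end Q263.DH
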