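import Mathlib
import Pool.Agent.Q263.DH.Def

/-!
# Finitely many attractors near diffeomorphisms with normally hyperbolic tori: definitions

`V n = ℝⁿ`, `DiffM n N r = Diff^r(N)` (`Pool/Agent/H718R2/G0.lean`), `Torus d`, `ChainRec`
(`Pool/Agent/H728R2/OS/Defs.lean`), `cyc`: the union of the tori of a cycle, `Approx`
(`Pool/Agent/Q192/FT/Defs.lean`), `TorusCycle` (`Pool/Agent/Q263/IC/Def.lean`), `NormalHyp`
(`Pool/Agent/Q263/DH/Def.lean`).
-/

set_option autoImplicit false

open scoped Manifold ContDiff Topology
open Set Filter Pool.Agent.H718R2.G Pool.Agent.H728R2.OS Pool.Agent.Q192.FT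
  Pool.Agent.H637R2.TD Pool.Agent.Y318.LF

universe u

namespace Q263.DH

/-- The `S i` are finitely many pairwise disjoint closed `g`-invariant sets, each of which contains
a point whose forward orbit is dense in it. -/
structure TransFam {X : Type u} [TopologicalSpace X] (g : X → X) {l : ℕ} (S : Fin l → Set X) :
    Prop where
  closed : ∀ i, IsClosed (S i)
  inv : ∀ i, g '' S i = S i
  dis : ∀ i j, i ≠ j → Disjoint (S i) (S j)
  trans : ∀ i, ∃ x ∈ S i, S i ⊆ closure (range fun k : ℕ => g^[k] x)

/-- The chain recurrent set of `g` is covered by finitely many pairwise disjoint closed invariant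
transitive sets. -/
def FewPieces {X : Type u} [MetricSpace X] (g : X ≃ₜ X) : Prop :=
  ∃ (l : ℕ) (S : Fin l → Set X), TransFam g S ∧ ChainRec g ⊆ ⋃ i, S i

/-- `f` is a `C^r` diffeomorphism of `𝕋^d` which preserves the standard flag of foliations and its
orientations (for `d = 1`: an orientation preserving `C^r` diffeomorphism of the circle), or which
is isotopic to the identity and preserves a complete flag of linear foliations, or which is any
other limit of `C^r` diffeomorphisms whose chain recurrent sets are covered by finitely many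
pairwise disjoint closed invariant transitive sets. -/
def TameF {d : ℕ} (r : ℕ∞) (f : Torus d ≃ₜ Torus d) : Prop :=
  IsFlagDiffeo r f ∨ (∃ W, PreservesFlag r f W) ∨ Approx r f FewPieces

/-- The chain recurrent set of `F` is contained in the union of finitely many closed invariant
transitive sets `M i` and of finitely many cycles of invariant tori with tame return maps, without
nonzero bounded orbits in the normal directions; all these sets are disjoint. -/
def AttractorCovered (n : ℕ) {N : Type u} [MetricSpace N] [ChartedSpace (V n) N]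
    [IsManifold (𝓡 n) ∞ N] (r : ℕ∞) (F : DiffM n N r) : Prop :=
  ∃ (l : ℕ) (M : Fin l → Set N) (p : ℕ) (d m : Fin p → ℕ) (E : Fin p → V n → N)
    (f : ∀ j, Torus (d j) ≃ₜ Torus (d j)),
    TransFam F M ∧
    (∀ j, Q263.IC.TorusCycle n r F (d j) (m j) (E j) (f j) ∧ TameF r (f j) ∧
      NormalHyp n (F^[m j]) (d j) (E j)) ∧
    (∀ i j, i ≠ j → Disjoint (cyc n F (d i) (m i) (E i)) (cyc n F (d j) (m j) (E j))) ∧
    (∀ i j, Disjoint (M i) (cyc n F (d j) (m j) (E j))) ∧
    ChainRec F.toHomeomorph ⊆ (⋃ i, M i) ∪ ⋃ j, cyc n F (d j) (m j) (E j)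

end Q263.DH
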