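import Mathlib
import Pool.Agent.Q263.DH.Def
import Pool.Agent.Q263.IC.Man

/-! The map `T` read in a tube near the core, and limits of its orbits near the core. -/

set_option autoImplicit false
set_option linter.unusedSectionVars false

open scoped Manifold ContDiff Topology
open Set Filter Pool.Agent.H718R2.G Pool.Agent.H728R2.OS
open Pool.Agent.Q192.FT (IsI emb em pr qq em_apply pr_em em_pr_add qq_em qq_qq pr_qq
  pr_int_iff qq_eq_iff qq_zero_iff core_iff)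
open Q263.IC

universe u

namespace Q263.DH

variable {n d : ℕ} {N : Type u} [TopologicalSpace N] [T2Space N] [CompactSpace N]
  [ChartedSpace (V n) N] [IsManifold (𝓡 n) ∞ N] {r : ℕ∞} {E : V n → N}

/-- The map `T` read in the tube near the points `x₀`, `x₀'` of the core. -/
structure Loc (n d : ℕ) {N : Type u} [TopologicalSpace N] (T : N → N) (E : V n → N)
    (x₀ x₀' : Fin d → ℝ) (Φ : V n → V n) (D : V n →L[ℝ] V n) : Prop where
  smooth : ContDiffAt ℝ 1 Φ (emb n d x₀)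
  deriv : fderiv ℝ Φ (emb n d x₀) = D
  val : Φ (emb n d x₀) = emb n d x₀'
  conj : ∀ᶠ v in 𝓝 (emb n d x₀), T (E v) = E (Φ v)
  core : ∀ᶠ x in 𝓝 x₀, qq n d (Φ (emb n d x)) = 0
  uniq : ∀ᶠ p in 𝓝 (emb n d x₀, emb n d x₀'), T (E p.1) = E p.2 → Φ p.1 = p.2

theorem exists_loc (hr : 1 ≤ r) (hE : Tube n d r E) {T : N → N}
    (hT : ContMDiff (𝓡 n) (𝓡 n) 1 T)
    (hcore : ∀ x : Fin d → ℝ, ∃ y : Fin d → ℝ, T (E (emb n d x)) = E (emb n d y))
    {x₀ x₀' : Fin d → ℝ} (h : T (E (emb n d x₀)) = E (emb n d x₀')) :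
    ∃ (Φ : V n → V n) (D : V n →L[ℝ] V n), Loc n d T E x₀ x₀' Φ D := by
  have := isManifold_r n N r
  have hr' : (1 : WithTop ℕ∞) ≤ r := by exact_mod_cast hr
  obtain ⟨χ, hχ, hv, hχE⟩ := hE.chart (emb n d x₀')
  have hs : E (emb n d x₀') ∈ χ.source := by
    rw [← hχE _ hv]
    exact χ.map_target hv
  have hEc : Continuous E := hE.smooth.continuous
  have hTE : Continuous fun v => T (E v) := hT.continuous.comp hEc
  have hev : ∀ᶠ v in 𝓝 (emb n d x₀), T (E v) ∈ χ.source := by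
    have h1 : Tendsto (fun v => T (E v)) (𝓝 (emb n d x₀)) (𝓝 (E (emb n d x₀'))) := by
      have := hTE.tendsto (emb n d x₀)
      rwa [h] at this
    exact h1.eventually (χ.open_source.mem_nhds hs)
  have hconj : ∀ v, T (E v) ∈ χ.source → T (E v) = E (χ (T (E v))) := by
    intro v hv1
    rw [← hχE _ (χ.map_source hv1), χ.left_inv hv1]
  refine ⟨fun v => χ (T (E v)), _, ⟨?_, rfl, ?_, ?_, ?_, ?_⟩⟩
  · rw [← contMDiffAt_iff_contDiffAt]
    have k1 : ContMDiffAt (𝓡 n) (𝓡 n) 1 E (emb n d x₀) := (hE.smooth _).of_le hr'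
    have k2 : ContMDiffAt (𝓡 n) (𝓡 n) 1 T (E (emb n d x₀)) := hT _
    have k3 : ContMDiffAt (𝓡 n) (𝓡 n) 1 χ (T (E (emb n d x₀))) := by
      rw [h]
      exact (contMDiffAt_of_mem_maximalAtlas hχ hs).of_le hr'
    exact k3.comp (emb n d x₀) (k2.comp (emb n d x₀) k1)
  · show χ (T (E (emb n d x₀))) = _
    rw [h, ← hχE _ hv, χ.right_inv hv]
  · filter_upwards [hev] with v hv1
    exact hconj v hv1
  · have hc : Continuous fun x : Fin d → ℝ => emb n d x := (em n d).continuous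
    filter_upwards [hc.continuousAt.eventually hev] with x hx
    obtain ⟨y, hy⟩ := hcore x
    have h1 : E (χ (T (E (emb n d x)))) = E (emb n d y) := by rw [← hconj _ hx, hy]
    have h2 := ((hE.inj _ _).1 h1).2
    rw [qq_zero_iff]
    intro i hi
    rw [← h2 i hi]
    exact Pool.Agent.Q192.FT.emb_ge y i hi
  · have h1 : ∀ᶠ p : V n × V n in 𝓝 (emb n d x₀, emb n d x₀'), p.2 ∈ χ.target :=
      continuousAt_snd.eventually (χ.open_target.mem_nhds hv)
    filter_upwards [h1] with p hp h2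
    show χ (T (E p.1)) = p.2
    rw [h2, ← hχE _ hp, χ.right_inv hp]

variable {T : N → N} {x₀ x₀' : Fin d → ℝ} {Φ : V n → V n} {D : V n →L[ℝ] V n}

theorem mdiff_E (hr : 1 ≤ r) (hE : Tube n d r E) (v : V n) :
    MDifferentiableAt (𝓡 n) (𝓡 n) E v :=
  (hE.smooth v).mdifferentiableAt (by
    have : (1 : WithTop ℕ∞) ≤ r := by exact_mod_cast hr
    intro h0
    rw [h0] at this
    exact absurd this (by norm_num))

theorem tangent_conj (hr : 1 ≤ r) (hE : Tube n d r E) (hT : ContMDiff (𝓡 n) (𝓡 n) 1 T)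
    {v : V n} (hΦ : DifferentiableAt ℝ Φ v) (hc : ∀ᶠ w in 𝓝 v, T (E w) = E (Φ w)) (a : V n) :
    tangentMap (𝓡 n) (𝓡 n) T (tangentMap (𝓡 n) (𝓡 n) E ⟨v, a⟩) =
      tangentMap (𝓡 n) (𝓡 n) E ⟨Φ v, fderiv ℝ Φ v a⟩ := by
  have hTd : MDifferentiableAt (𝓡 n) (𝓡 n) T (E v) := (hT _).mdifferentiableAt (by norm_num)
  have hΦd : MDifferentiableAt (𝓡 n) (𝓡 n) Φ v := hΦ.mdifferentiableAt
  have h1 : tangentMap (𝓡 n) (𝓡 n) (T ∘ E) ⟨v, a⟩ =
      tangentMap (𝓡 n) (𝓡 n) T (tangentMap (𝓡 n) (𝓡 n) E ⟨v, a⟩) :=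
    tangentMap_comp_at ⟨v, a⟩ hTd (mdiff_E hr hE v)
  have h2 : tangentMap (𝓡 n) (𝓡 n) (E ∘ Φ) ⟨v, a⟩ =
      tangentMap (𝓡 n) (𝓡 n) E (tangentMap (𝓡 n) (𝓡 n) Φ ⟨v, a⟩) :=
    tangentMap_comp_at ⟨v, a⟩ (mdiff_E hr hE (Φ v)) hΦd
  have h3 : tangentMap (𝓡 n) (𝓡 n) Φ ⟨v, a⟩ = ⟨Φ v, fderiv ℝ Φ v a⟩ := by
    show (⟨Φ v, mfderiv (𝓡 n) (𝓡 n) Φ v a⟩ : TangentBundle (𝓡 n) (V n)) = _
    rw [mfderiv_eq_fderiv]
    rfl
  rw [← h1, ← h3, ← h2]
  have h4 : (T ∘ E) =ᶠ[𝓝 v] (E ∘ Φ) := hc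
  have h5 : T (E v) = E (Φ v) := h4.self_of_nhds
  have h6 : mfderiv (𝓡 n) (𝓡 n) (T ∘ E) v = mfderiv (𝓡 n) (𝓡 n) (E ∘ Φ) v := h4.mfderiv_eq
  show (⟨T (E v), mfderiv (𝓡 n) (𝓡 n) (T ∘ E) v a⟩ : TangentBundle (𝓡 n) N) =
    ⟨E (Φ v), mfderiv (𝓡 n) (𝓡 n) (E ∘ Φ) v a⟩
  rw [h6]
  exact Bundle.TotalSpace.ext h5 HEq.rfl

theorem tangent_inj (hr : 1 ≤ r) (hE : Tube n d r E) {v a b : V n}
    (h : tangentMap (𝓡 n) (𝓡 n) E ⟨v, a⟩ = tangentMap (𝓡 n) (𝓡 n) E ⟨v, b⟩) : a = b := by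
  have := isManifold_r n N r
  have hr' : (1 : WithTop ℕ∞) ≤ r := by exact_mod_cast hr
  obtain ⟨χ, hχ, hv, hχE⟩ := hE.chart v
  have hs : E v ∈ χ.source := by
    rw [← hχE _ hv]
    exact χ.map_target hv
  have h1 : mfderiv (𝓡 n) (𝓡 n) E v a = mfderiv (𝓡 n) (𝓡 n) E v b := by
    have h2 : (⟨E v, mfderiv (𝓡 n) (𝓡 n) E v a⟩ : TangentBundle (𝓡 n) N) =
      ⟨E v, mfderiv (𝓡 n) (𝓡 n) E v b⟩ := h
    injection h2
  have hχd : MDifferentiableAt (𝓡 n) (𝓡 n) χ (E v) := by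
    have k0 : ContMDiffAt (𝓡 n) (𝓡 n) 1 χ (E v) :=
      (contMDiffAt_of_mem_maximalAtlas hχ hs).of_le hr'
    exact k0.mdifferentiableAt one_ne_zero
  have h3 : (χ ∘ E) =ᶠ[𝓝 v] id := by
    filter_upwards [χ.open_target.mem_nhds hv] with w hw
    show χ (E w) = w
    rw [← hχE _ hw, χ.right_inv hw]
  have h4 : ∀ c : V n, mfderiv (𝓡 n) (𝓡 n) χ (E v) (mfderiv (𝓡 n) (𝓡 n) E v c) = c := by
    intro c
    have h5 := mfderiv_comp v hχd (mdiff_E hr hE v)
    have h6 : mfderiv (𝓡 n) (𝓡 n) (χ ∘ E) v = mfderiv (𝓡 n) (𝓡 n) (id : V n → V n) v :=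
      h3.mfderiv_eq
    rw [h5, mfderiv_id] at h6
    exact congrArg (fun L : V n →L[ℝ] V n => L c) h6
  rw [← h4 a, ← h4 b, h1]

/-- the relation in the limit -/
theorem Loc.limit (hr : 1 ≤ r) (hd : d ≤ n) (hE : Tube n d r E) (hT : ContMDiff (𝓡 n) (𝓡 n) 1 T)
    (L : Loc n d T E x₀ x₀' Φ D) {a a' : V n} (h : a' = qq n d (D a)) :
    ∃ t : Fin d → ℝ, tangentMap (𝓡 n) (𝓡 n) T (tangentMap (𝓡 n) (𝓡 n) E ⟨emb n d x₀, a⟩) =
      tangentMap (𝓡 n) (𝓡 n) E ⟨emb n d x₀', a' + emb n d t⟩ := by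
  refine ⟨pr n hd (D a), ?_⟩
  rw [tangent_conj hr hE hT (L.smooth.differentiableAt one_ne_zero) L.conj a, L.val, L.deriv]
  congr 2
  rw [h, add_comm]
  exact (em_pr_add hd (D a)).symm

theorem Loc.iso (L : Loc n d T E x₀ x₀' Φ D) {l : Filter ℕ} [l.NeBot] {x x' : ℕ → Fin d → ℝ}
    {y y' : ℕ → V n} {σ : ℕ → ℝ} (hσ : ∀ j, 0 < σ j) (hσ0 : Tendsto σ l (𝓝 0))
    (hx : Tendsto x l (𝓝 x₀)) (hx' : Tendsto x' l (𝓝 x₀')) {a a' : V n}
    (ha : Tendsto (fun j => (σ j)⁻¹ • y j) l (𝓝 a))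
    (ha' : Tendsto (fun j => (σ j)⁻¹ • y' j) l (𝓝 a')) (hy' : ∀ j, qq n d (y' j) = y' j)
    (h : ∀ᶠ j in l, T (E (emb n d (x j) + y j)) = E (emb n d (x' j) + y' j)) :
    a' = qq n d (D a) := by
  have hc : Continuous fun x : Fin d → ℝ => emb n d x := (em n d).continuous
  have hzero : ∀ {w : ℕ → V n} {b : V n}, Tendsto (fun j => (σ j)⁻¹ • w j) l (𝓝 b) →
      Tendsto w l (𝓝 0) := by
    intro w b hb
    have h1 := hσ0.smul hb
    rw [zero_smul] at h1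
    refine h1.congr fun j => ?_
    rw [smul_smul, mul_inv_cancel₀ (hσ j).ne', one_smul]
  have hP : Tendsto (fun j => emb n d (x j) + y j) l (𝓝 (emb n d x₀)) := by
    have h1 := ((hc.tendsto x₀).comp hx).add (hzero ha)
    rw [add_zero] at h1
    exact h1
  have hP' : Tendsto (fun j => emb n d (x' j) + y' j) l (𝓝 (emb n d x₀')) := by
    have h1 := ((hc.tendsto x₀').comp hx').add (hzero ha')
    rw [add_zero] at h1
    exact h1
  have hval : ∀ᶠ j in l, Φ (emb n d (x j) + y j) = emb n d (x' j) + y' j := by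
    filter_upwards [(hP.prodMk_nhds hP').eventually L.uniq, h] with j h1 h2
    exact h1 h2
  have hstrict : HasStrictFDerivAt Φ D (emb n d x₀) := by
    rw [← L.deriv]
    exact L.smooth.hasStrictFDerivAt one_ne_zero
  have ho := hstrict.isLittleO.comp_tendsto (hP.prodMk_nhds ((hc.tendsto x₀).comp hx))
  have ho1 : (fun j => Φ (emb n d (x j) + y j) - Φ (emb n d (x j)) - D (y j)) =o[l] y := by
    refine ho.congr_left (fun j => ?_) |>.congr_right fun j => ?_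
    · simp only [Function.comp, add_sub_cancel_left]
    · simp only [Function.comp, add_sub_cancel_left]
  have hO : y =O[l] σ := by
    have h1 : (fun j => (σ j)⁻¹ • y j) =O[l] fun _ => (1 : ℝ) := ha.isBigO_one ℝ
    have h2 := (Asymptotics.isBigO_refl σ l).smul h1
    refine (h2.congr_left fun j => ?_).congr_right fun j => ?_
    · rw [smul_smul, mul_inv_cancel₀ (hσ j).ne', one_smul]
    · rw [smul_eq_mul, mul_one]
  have ho2 := (ho1.trans_isBigO hO).tendsto_inv_smul_nhds_zero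
  have ho3 := ((qq n d).continuous.tendsto 0).comp ho2
  rw [map_zero] at ho3
  have hcore := hx.eventually L.core
  have h5 : Tendsto (fun j => (σ j)⁻¹ • y' j - qq n d (D ((σ j)⁻¹ • y j))) l (𝓝 0) := by
    refine ho3.congr' ?_
    filter_upwards [hval, hcore] with j h1 h2
    simp only [Function.comp, map_smul, map_sub, h1, h2, map_add, sub_zero]
    rw [show qq n d (emb n d (x' j)) = 0 from qq_em _, zero_add, hy', smul_sub]
  have h6 : Tendsto (fun j => (σ j)⁻¹ • y' j - qq n d (D ((σ j)⁻¹ • y j))) l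
      (𝓝 (a' - qq n d (D a))) :=
    ha'.sub ((((qq n d).comp D).continuous.tendsto a).comp ha)
  exact sub_eq_zero.1 (tendsto_nhds_unique h6 h5)

theorem Loc.lin (hr : 1 ≤ r) (hd : d ≤ n) (hE : Tube n d r E) (hT : ContMDiff (𝓡 n) (𝓡 n) 1 T)
    (L : Loc n d T E x₀ x₀' Φ D) {l : Filter ℕ} [l.NeBot] {x x' t : ℕ → Fin d → ℝ}
    {v v' : ℕ → V n} {σ : ℕ → ℝ} (hx : Tendsto x l (𝓝 x₀)) (hx' : Tendsto x' l (𝓝 x₀'))
    {a a' : V n} (ha : Tendsto (fun j => (σ j)⁻¹ • qq n d (v j)) l (𝓝 a))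
    (ha' : Tendsto (fun j => (σ j)⁻¹ • qq n d (v' j)) l (𝓝 a'))
    (h : ∀ᶠ j in l, tangentMap (𝓡 n) (𝓡 n) T
        (tangentMap (𝓡 n) (𝓡 n) E ⟨emb n d (x j), v j⟩) =
      tangentMap (𝓡 n) (𝓡 n) E ⟨emb n d (x' j), v' j + emb n d (t j)⟩) :
    a' = qq n d (D a) := by
  have hc : Continuous fun x : Fin d → ℝ => emb n d x := (em n d).continuous
  have hP : Tendsto (fun j => emb n d (x j)) l (𝓝 (emb n d x₀)) := (hc.tendsto x₀).comp hx
  have hP' : Tendsto (fun j => emb n d (x' j)) l (𝓝 (emb n d x₀')) := (hc.tendsto x₀').comp hx'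
  have hsm : ∀ᶠ w in 𝓝 (emb n d x₀), ContDiffAt ℝ 1 Φ w := L.smooth.eventually (by simp)
  have key : ∀ᶠ j in l, (σ j)⁻¹ • qq n d (v' j) =
      qq n d (fderiv ℝ Φ (emb n d (x j)) ((σ j)⁻¹ • qq n d (v j))) := by
    filter_upwards [h, (hP.prodMk_nhds hP').eventually L.uniq,
      hP.eventually (eventually_eventually_nhds.2 L.conj), hP.eventually hsm,
      hx.eventually (eventually_eventually_nhds.2 L.core)] with j h1 h2 h3 h4 h5
    have hdiff : DifferentiableAt ℝ Φ (emb n d (x j)) := h4.differentiableAt one_ne_zero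
    rw [tangent_conj hr hE hT hdiff h3] at h1
    have hbase : T (E (emb n d (x j))) = E (emb n d (x' j)) := by
      have e1 : T (E (emb n d (x j))) = E (Φ (emb n d (x j))) := h3.self_of_nhds
      rw [e1]
      exact congrArg Bundle.TotalSpace.proj h1
    have hΦx := h2 hbase
    rw [hΦx] at h1
    have h6 := tangent_inj hr hE h1
    -- tangent directions
    have h7 : ∀ s : Fin d → ℝ, qq n d (fderiv ℝ Φ (emb n d (x j)) (emb n d s)) = 0 := by
      intro s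
      have k1 : HasFDerivAt (fun y : Fin d → ℝ => qq n d (Φ (em n d y)))
          ((qq n d).comp ((fderiv ℝ Φ (emb n d (x j))).comp (em n d))) (x j) := by
        have k2 : HasFDerivAt Φ (fderiv ℝ Φ (emb n d (x j))) (em n d (x j)) := hdiff.hasFDerivAt
        exact (qq n d).hasFDerivAt.comp (x j) (k2.comp (x j) (em n d).hasFDerivAt)
      have k3 : HasFDerivAt (fun y : Fin d → ℝ => qq n d (Φ (em n d y)))
          (0 : (Fin d → ℝ) →L[ℝ] V n) (x j) :=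
        (hasFDerivAt_const (0 : V n) (x j)).congr_of_eventuallyEq (by
          filter_upwards [h5] with y hy
          exact hy)
      exact congrArg (fun M : (Fin d → ℝ) →L[ℝ] V n => M s) (k1.unique k3)
    have h8 : qq n d (v' j) = qq n d (fderiv ℝ Φ (emb n d (x j)) (qq n d (v j))) := by
      have k1 := congrArg (qq n d) h6
      rw [map_add, show qq n d (emb n d (t j)) = 0 from qq_em _, add_zero] at k1
      rw [← k1]
      conv_lhs => rw [← em_pr_add hd (v j)]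
      rw [map_add, map_add, em_apply, h7, zero_add]
    rw [h8, map_smul, map_smul]
  have h9 : Tendsto (fun j => fderiv ℝ Φ (emb n d (x j))) l (𝓝 D) := by
    have k1 : ContinuousAt (fderiv ℝ Φ) (emb n d x₀) :=
      L.smooth.continuousAt_fderiv (by simp)
    have k2 := k1.tendsto.comp hP
    rw [L.deriv] at k2
    exact k2
  have h11 : Tendsto (fun j => fderiv ℝ Φ (emb n d (x j)) ((σ j)⁻¹ • qq n d (v j))) l
      (𝓝 (D a)) :=
    (isBoundedBilinearMap_apply.continuous.tendsto (D, a)).comp (h9.prodMk_nhds ha)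
  have h10 : Tendsto (fun j => qq n d (fderiv ℝ Φ (emb n d (x j)) ((σ j)⁻¹ • qq n d (v j)))) l
      (𝓝 (qq n d (D a))) := ((qq n d).continuous.tendsto _).comp h11
  exact tendsto_nhds_unique ha' (h10.congr' (by
    filter_upwards [key] with j hj
    exact hj.symm))

end Q263.DH
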