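import Mathlib
import Pool.Agent.Q263.DH.Rel

/-! Compactness: there are no pseudo-orbits near a torus without bounded normal orbits. -/

set_option autoImplicit false
set_option linter.unusedSectionVars false

open scoped Manifold ContDiff Topology
open Set Filter Pool.Agent.H718R2.G Pool.Agent.H728R2.OS
open Pool.Agent.Q192.FT (IsI emb em pr qq em_apply pr_em em_pr_add qq_em qq_qq pr_qq
  pr_int_iff qq_eq_iff qq_zero_iff core_iff)
open Q263.IC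

universe u

namespace Q263.DH

theorem ulim {X : Type*} [TopologicalSpace X] {s : Set X} (hs : IsCompact s) (l : Ultrafilter ℕ)
    {w : ℕ → X} (hw : ∀ j, w j ∈ s) : ∃ a ∈ s, Tendsto w l (𝓝 a) := by
  obtain ⟨a, ha, h⟩ := hs.ultrafilter_le_nhds (l.map w) (by
    rw [le_principal_iff]
    exact Filter.mem_map.2 (Filter.univ_mem' hw))
  exact ⟨a, ha, h⟩

variable {n d : ℕ} {N : Type u} [TopologicalSpace N] [T2Space N] [CompactSpace N]
  [ChartedSpace (V n) N] [IsManifold (𝓡 n) ∞ N] {r : ℕ∞} {E : V n → N} {T : N → N}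

theorem limit_contra (hr : 1 ≤ r) (hd : d ≤ n) (hE : Tube n d r E)
    (hT : ContMDiff (𝓡 n) (𝓡 n) 1 T)
    (hcore : ∀ x : Fin d → ℝ, ∃ y : Fin d → ℝ, T (E (emb n d x)) = E (emb n d y))
    (hN : NormalHyp n T d E) (l : Ultrafilter ℕ) {x : ℕ → ℤ → Fin d → ℝ} {y : ℕ → ℤ → V n}
    {σ : ℕ → ℝ} (hσ : ∀ j, 0 < σ j) (hx : ∀ j k, x j k ∈ Icc (0 : Fin d → ℝ) 1)
    (hy : ∀ j k, ‖y j k‖ ≤ σ j) (hq : ∀ j k, qq n d (y j k) = y j k)
    (h0 : ∀ j, σ j / 2 ≤ ‖y j 0‖)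
    (hb : ∀ k x₀ x₀', Tendsto (fun j => x j k) l (𝓝 x₀) →
      Tendsto (fun j => x j (k + 1)) l (𝓝 x₀') → T (E (emb n d x₀)) = E (emb n d x₀'))
    (hrel : ∀ k x₀ x₀' Φ D a a', Loc n d T E x₀ x₀' Φ D → Tendsto (fun j => x j k) l (𝓝 x₀) →
      Tendsto (fun j => x j (k + 1)) l (𝓝 x₀') → Tendsto (fun j => (σ j)⁻¹ • y j k) l (𝓝 a) →
      Tendsto (fun j => (σ j)⁻¹ • y j (k + 1)) l (𝓝 a') → a' = qq n d (D a)) : False := by
  have h1 : ∀ k, ∃ x₀ ∈ Icc (0 : Fin d → ℝ) 1, Tendsto (fun j => x j k) l (𝓝 x₀) :=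
    fun k => ulim isCompact_Icc l fun j => hx j k
  choose X _ hX using h1
  have hn : ∀ j k, ‖(σ j)⁻¹ • y j k‖ ≤ 1 := by
    intro j k
    rw [norm_smul, norm_inv, Real.norm_of_nonneg (hσ j).le, inv_mul_le_iff₀ (hσ j), mul_one]
    exact hy j k
  have h2 : ∀ k, ∃ a ∈ Metric.closedBall (0 : V n) 1,
      Tendsto (fun j => (σ j)⁻¹ • y j k) l (𝓝 a) :=
    fun k => ulim (isCompact_closedBall _ _) l fun j => by
      rw [mem_closedBall_zero_iff]
      exact hn j k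
  choose A hA1 hA using h2
  have hAq : ∀ k, qq n d (A k) = A k := by
    intro k
    refine tendsto_nhds_unique (((qq n d).continuous.tendsto _).comp (hA k))
      ((hA k).congr fun j => ?_)
    simp only [Function.comp, map_smul, hq]
  have h3 : ∀ k, ∃ t : Fin d → ℝ,
      tangentMap (𝓡 n) (𝓡 n) T (tangentMap (𝓡 n) (𝓡 n) E ⟨emb n d (X k), A k⟩) =
      tangentMap (𝓡 n) (𝓡 n) E ⟨emb n d (X (k + 1)), A (k + 1) + emb n d t⟩ := by
    intro k
    have hbk := hb k _ _ (hX k) (hX (k + 1))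
    obtain ⟨Φ, D, L⟩ := exists_loc hr hE hT hcore hbk
    exact L.limit hr hd hE hT (hrel k _ _ Φ D _ _ L (hX k) (hX (k + 1)) (hA k) (hA (k + 1)))
  choose t ht using h3
  have h4 := hN X A t ht ⟨1, fun k i _ => by
    have e1 := PiLp.norm_apply_le (A k) i
    have e2 := hA1 k
    rw [mem_closedBall_zero_iff] at e2
    rw [Real.norm_eq_abs] at e1
    exact e1.trans e2⟩
  have h5 : A 0 = 0 := by
    rw [← hAq 0, qq_zero_iff]
    exact h4 0
  have h6 : 1 / 2 ≤ ‖A 0‖ := by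
    refine ge_of_tendsto' (hA 0).norm fun j => ?_
    rw [norm_smul, norm_inv, Real.norm_of_nonneg (hσ j).le]
    have e1 := h0 j
    rw [le_inv_mul_iff₀ (hσ j)]
    linarith
  rw [h5, norm_zero] at h6
  norm_num at h6

/-- fractional parts -/
noncomputable def fr (x : Fin d → ℝ) : Fin d → ℝ := fun i => Int.fract (x i)

theorem fr_mem (x : Fin d → ℝ) : fr x ∈ Icc (0 : Fin d → ℝ) 1 :=
  ⟨fun _ => Int.fract_nonneg _, fun _ => (Int.fract_lt_one _).le⟩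

theorem isI_fr (x : Fin d → ℝ) : IsI (fr x - x) := fun i => ⟨-⌊x i⌋, by
  show Int.fract (x i) - x i = _
  rw [Int.fract]
  push_cast
  ring⟩

theorem E_red (hd : d ≤ n) (hE : Tube n d r E) (z : V n) (τ : Fin d → ℝ) :
    E (z + emb n d τ) = E (emb n d (fr (pr n hd z) + τ) + qq n d z) := by
  have h1 := hE.add_int hd (z + em n d τ) (isI_fr (pr n hd z))
  rw [show z + emb n d τ = z + em n d τ from rfl, ← h1]
  congr 1
  rw [show emb n d (fr (pr n hd z) + τ) = em n d (fr (pr n hd z) + τ) from rfl, map_add, map_sub]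
  nth_rewrite 1 [← em_pr_add hd z]
  abel

theorem sup_half {w : ℤ → ℝ} {C : ℝ} (h : ∀ k, w k ≤ C) (h1 : ∃ k, 0 < w k) :
    ∃ σ : ℝ, 0 < σ ∧ σ ≤ C ∧ (∀ k, w k ≤ σ) ∧ ∃ k, σ / 2 ≤ w k := by
  have hbdd : BddAbove (range w) := ⟨C, by rintro _ ⟨k, rfl⟩; exact h k⟩
  obtain ⟨k₁, hk₁⟩ := h1
  have hpos : 0 < ⨆ k, w k := hk₁.trans_le (le_ciSup hbdd k₁)
  refine ⟨⨆ k, w k, hpos, ciSup_le h, fun k => le_ciSup hbdd k, ?_⟩
  obtain ⟨k, hk⟩ := exists_lt_of_lt_ciSup (half_lt_self hpos)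
  exact ⟨k, hk.le⟩

/-- no pseudo-orbits with small normal coordinates -/
theorem iso (hr : 1 ≤ r) (hd : d ≤ n) (hE : Tube n d r E)
    (hT : ContMDiff (𝓡 n) (𝓡 n) 1 T)
    (hcore : ∀ x : Fin d → ℝ, ∃ y : Fin d → ℝ, T (E (emb n d x)) = E (emb n d y))
    (hN : NormalHyp n T d E) :
    ∃ ε : ℝ, 0 < ε ∧ ∀ (z : ℤ → V n) (τ : ℤ → Fin d → ℝ), (∀ k, ‖τ k‖ ≤ ε) →
      (∀ k, T (E (z k + emb n d (τ k))) = E (z (k + 1))) → (∀ k, ‖qq n d (z k)‖ ≤ ε) →
      ∀ k, qq n d (z k) = 0 := by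
  by_contra hcon
  have h1 : ∀ j : ℕ, ∃ (z : ℤ → V n) (τ : ℤ → Fin d → ℝ) (σ : ℝ),
      (∀ k, ‖τ k‖ ≤ 1 / ((j : ℝ) + 1)) ∧ (∀ k, T (E (z k + emb n d (τ k))) = E (z (k + 1))) ∧
      0 < σ ∧ σ ≤ 1 / ((j : ℝ) + 1) ∧ (∀ k, ‖qq n d (z k)‖ ≤ σ) ∧ σ / 2 ≤ ‖qq n d (z 0)‖ := by
    intro j
    by_contra hj
    apply hcon
    refine ⟨1 / ((j : ℝ) + 1), by positivity, fun z τ hτ hz hzb k => ?_⟩
    by_contra hk
    apply hj
    obtain ⟨σ, hσ, hσC, hσ1, k₀, hk₀⟩ := sup_half (w := fun k => ‖qq n d (z k)‖) hzb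
      ⟨k, norm_pos_iff.2 hk⟩
    refine ⟨fun i => z (i + k₀), fun i => τ (i + k₀), σ, fun i => hτ _, fun i => ?_, hσ, hσC,
      fun i => hσ1 _, ?_⟩
    · show T (E (z (i + k₀) + emb n d (τ (i + k₀)))) = E (z (i + 1 + k₀))
      rw [show i + 1 + k₀ = i + k₀ + 1 by ring]
      exact hz _
    · show σ / 2 ≤ ‖qq n d (z (0 + k₀))‖
      rw [zero_add]
      exact hk₀
  choose z τ σ hτ hz hσ hσj hσ1 h0 using h1
  have hzero : Tendsto (fun j : ℕ => 1 / ((j : ℝ) + 1)) (hyperfilter ℕ : Filter ℕ) (𝓝 0) :=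
    tendsto_one_div_add_atTop_nhds_zero_nat.mono_left Nat.hyperfilter_le_atTop
  have hσ0 : Tendsto σ (hyperfilter ℕ : Filter ℕ) (𝓝 0) :=
    squeeze_zero (fun j => (hσ j).le) hσj hzero
  have hτ0 : ∀ k, Tendsto (fun j => τ j k) (hyperfilter ℕ : Filter ℕ) (𝓝 0) := fun k =>
    squeeze_zero_norm (fun j => hτ j k) hzero
  have hc : Continuous fun x : Fin d → ℝ => emb n d x := (em n d).continuous
  have hrel : ∀ j k, T (E (emb n d (fr (pr n hd (z j k)) + τ j k) + qq n d (z j k))) =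
      E (emb n d (fr (pr n hd (z j (k + 1)))) + qq n d (z j (k + 1))) := by
    intro j k
    rw [← E_red hd hE, hz j k]
    have e := E_red hd hE (z j (k + 1)) 0
    rw [show emb n d (0 : Fin d → ℝ) = 0 from map_zero (em n d), add_zero, add_zero] at e
    exact e
  have hq0 : ∀ k, Tendsto (fun j => qq n d (z j k)) (hyperfilter ℕ : Filter ℕ) (𝓝 0) := fun k =>
    squeeze_zero_norm (fun j => hσ1 j k) hσ0
  refine limit_contra hr hd hE hT hcore hN (hyperfilter ℕ)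
    (x := fun j k => fr (pr n hd (z j k))) (y := fun j k => qq n d (z j k)) (σ := σ) hσ
    (fun j k => fr_mem _) hσ1 (fun j k => qq_qq _) h0 ?_ ?_
  · intro k x₀ x₀' hx hx'
    have e1 : Tendsto (fun j => emb n d (fr (pr n hd (z j k)) + τ j k) + qq n d (z j k))
        (hyperfilter ℕ : Filter ℕ) (𝓝 (emb n d x₀)) := by
      have := ((hc.tendsto _).comp (hx.add (hτ0 k))).add (hq0 k)
      rwa [add_zero, add_zero] at this
    have e2 : Tendsto (fun j => emb n d (fr (pr n hd (z j (k + 1)))) + qq n d (z j (k + 1)))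
        (hyperfilter ℕ : Filter ℕ) (𝓝 (emb n d x₀')) := by
      have := ((hc.tendsto _).comp hx').add (hq0 (k + 1))
      rwa [add_zero] at this
    have e3 := ((hT.continuous.comp hE.smooth.continuous).tendsto _).comp e1
    have e4 := (hE.smooth.continuous.tendsto _).comp e2
    refine tendsto_nhds_unique e3 (e4.congr fun j => ?_)
    exact (hrel j k).symm
  · intro k x₀ x₀' Φ D a a' L hx hx' ha ha'
    have hx1 := hx.add (hτ0 k)
    rw [add_zero] at hx1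
    exact L.iso hσ hσ0 hx1 hx' ha ha' (fun j => qq_qq _) (Eventually.of_forall fun j => hrel j k)

theorem tangent_int (hr : 1 ≤ r) (hd : d ≤ n) (hE : Tube n d r E) (w a : V n) {m : Fin d → ℝ}
    (hm : IsI m) : tangentMap (𝓡 n) (𝓡 n) E ⟨w + em n d m, a⟩ =
      tangentMap (𝓡 n) (𝓡 n) E ⟨w, a⟩ := by
  have hS : MDifferentiableAt (𝓡 n) (𝓡 n) (fun v : V n => v + em n d m) w :=
    (differentiableAt_id.add_const _).mdifferentiableAt
  have h1 : tangentMap (𝓡 n) (𝓡 n) (E ∘ fun v : V n => v + em n d m) ⟨w, a⟩ =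
      tangentMap (𝓡 n) (𝓡 n) E (tangentMap (𝓡 n) (𝓡 n) (fun v : V n => v + em n d m) ⟨w, a⟩) :=
    tangentMap_comp_at ⟨w, a⟩ (mdiff_E hr hE (w + em n d m)) hS
  have h2 : tangentMap (𝓡 n) (𝓡 n) (fun v : V n => v + em n d m) ⟨w, a⟩ =
      ⟨w + em n d m, a⟩ := by
    show (⟨w + em n d m, mfderiv (𝓡 n) (𝓡 n) (fun v : V n => v + em n d m) w a⟩ :
      TangentBundle (𝓡 n) (V n)) = _
    rw [mfderiv_eq_fderiv, fderiv_add_const, fderiv_fun_id]
    rfl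
  have h3 : (E ∘ fun v : V n => v + em n d m) = E := by
    funext v
    exact hE.add_int hd v hm
  rw [h2, h3] at h1
  exact h1.symm

/-- no bounded pseudo-orbits of the derivative in the normal bundle -/
theorem lin (hr : 1 ≤ r) (hd : d ≤ n) (hE : Tube n d r E)
    (hT : ContMDiff (𝓡 n) (𝓡 n) 1 T)
    (hcore : ∀ x : Fin d → ℝ, ∃ y : Fin d → ℝ, T (E (emb n d x)) = E (emb n d y))
    (hN : NormalHyp n T d E) :
    ∃ ε : ℝ, 0 < ε ∧ ∀ (x τ : ℤ → Fin d → ℝ) (v : ℤ → V n) (t : ℤ → Fin d → ℝ),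
      (∀ k, ‖τ k‖ ≤ ε) →
      (∀ k, tangentMap (𝓡 n) (𝓡 n) T (tangentMap (𝓡 n) (𝓡 n) E ⟨emb n d (x k + τ k), v k⟩) =
        tangentMap (𝓡 n) (𝓡 n) E ⟨emb n d (x (k + 1)), v (k + 1) + emb n d (t k)⟩) →
      (∃ C : ℝ, ∀ k, ‖qq n d (v k)‖ ≤ C) → ∀ k, qq n d (v k) = 0 := by
  by_contra hcon
  have h1 : ∀ j : ℕ, ∃ (x τ : ℤ → Fin d → ℝ) (v : ℤ → V n) (t : ℤ → Fin d → ℝ) (σ : ℝ),
      (∀ k, ‖τ k‖ ≤ 1 / ((j : ℝ) + 1)) ∧
      (∀ k, tangentMap (𝓡 n) (𝓡 n) T (tangentMap (𝓡 n) (𝓡 n) E ⟨emb n d (x k + τ k), v k⟩) =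
        tangentMap (𝓡 n) (𝓡 n) E ⟨emb n d (x (k + 1)), v (k + 1) + emb n d (t k)⟩) ∧
      0 < σ ∧ (∀ k, ‖qq n d (v k)‖ ≤ σ) ∧ σ / 2 ≤ ‖qq n d (v 0)‖ := by
    intro j
    by_contra hj
    apply hcon
    refine ⟨1 / ((j : ℝ) + 1), by positivity, fun x τ v t hτ hz hzb k => ?_⟩
    by_contra hk
    apply hj
    obtain ⟨C, hC⟩ := hzb
    obtain ⟨σ, hσ, hσC, hσ1, k₀, hk₀⟩ := sup_half (w := fun k => ‖qq n d (v k)‖) hC
      ⟨k, norm_pos_iff.2 hk⟩
    refine ⟨fun i => x (i + k₀), fun i => τ (i + k₀), fun i => v (i + k₀), fun i => t (i + k₀), σ,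
      fun i => hτ _, fun i => ?_, hσ, fun i => hσ1 _, ?_⟩
    · show tangentMap (𝓡 n) (𝓡 n) T (tangentMap (𝓡 n) (𝓡 n) E
          ⟨emb n d (x (i + k₀) + τ (i + k₀)), v (i + k₀)⟩) =
        tangentMap (𝓡 n) (𝓡 n) E ⟨emb n d (x (i + 1 + k₀)), v (i + 1 + k₀) +
          emb n d (t (i + k₀))⟩
      rw [show i + 1 + k₀ = i + k₀ + 1 by ring]
      exact hz _
    · show σ / 2 ≤ ‖qq n d (v (0 + k₀))‖
      rw [zero_add]
      exact hk₀
  choose x τ v t σ hτ hz hσ hσ1 h0 using h1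
  have hzero : Tendsto (fun j : ℕ => 1 / ((j : ℝ) + 1)) (hyperfilter ℕ : Filter ℕ) (𝓝 0) :=
    tendsto_one_div_add_atTop_nhds_zero_nat.mono_left Nat.hyperfilter_le_atTop
  have hτ0 : ∀ k, Tendsto (fun j => τ j k) (hyperfilter ℕ : Filter ℕ) (𝓝 0) := fun k =>
    squeeze_zero_norm (fun j => hτ j k) hzero
  have hc : Continuous fun x : Fin d → ℝ => emb n d x := (em n d).continuous
  have hred : ∀ (y s : Fin d → ℝ) (b : V n), tangentMap (𝓡 n) (𝓡 n) E ⟨emb n d (y + s), b⟩ =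
      tangentMap (𝓡 n) (𝓡 n) E ⟨emb n d (fr y + s), b⟩ := by
    intro y s b
    have e := tangent_int hr hd hE (em n d (y + s)) b (isI_fr y)
    rw [← map_add, show y + s + (fr y - y) = fr y + s by abel] at e
    exact e.symm
  have hrel : ∀ j k, tangentMap (𝓡 n) (𝓡 n) T (tangentMap (𝓡 n) (𝓡 n) E
        ⟨emb n d (fr (x j k) + τ j k), v j k⟩) =
      tangentMap (𝓡 n) (𝓡 n) E ⟨emb n d (fr (x j (k + 1))), v j (k + 1) + emb n d (t j k)⟩ := by
    intro j k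
    have e := hred (x j (k + 1)) 0 (v j (k + 1) + emb n d (t j k))
    rw [add_zero, add_zero] at e
    rw [← hred, hz j k, e]
  refine limit_contra hr hd hE hT hcore hN (hyperfilter ℕ)
    (x := fun j k => fr (x j k)) (y := fun j k => qq n d (v j k)) (σ := σ) hσ
    (fun j k => fr_mem _) hσ1 (fun j k => qq_qq _) h0 ?_ ?_
  · intro k x₀ x₀' hx hx'
    have e1 : Tendsto (fun j => emb n d (fr (x j k) + τ j k))
        (hyperfilter ℕ : Filter ℕ) (𝓝 (emb n d x₀)) := by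
      have := (hc.tendsto _).comp (hx.add (hτ0 k))
      rwa [add_zero] at this
    have e2 : Tendsto (fun j => emb n d (fr (x j (k + 1))))
        (hyperfilter ℕ : Filter ℕ) (𝓝 (emb n d x₀')) := (hc.tendsto _).comp hx'
    have e3 := ((hT.continuous.comp hE.smooth.continuous).tendsto _).comp e1
    have e4 := (hE.smooth.continuous.tendsto _).comp e2
    refine tendsto_nhds_unique e3 (e4.congr fun j => ?_)
    exact (congrArg Bundle.TotalSpace.proj (hrel j k)).symm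
  · intro k x₀ x₀' Φ D a a' L hx hx' ha ha'
    have hx1 := hx.add (hτ0 k)
    rw [add_zero] at hx1
    exact L.lin hr hd hE hT hx1 hx' ha ha' (Eventually.of_forall fun j => hrel j k)

end Q263.DH
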