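import Mathlib
import Pool.Agent.Q263.DH.Lim
import Pool.Agent.Q192.FT.HypT
import Pool.Agent.Q192.FT.Hyp

/-! Hyperbolic periodic points on a torus without bounded normal orbits. -/

set_option autoImplicit false
set_option linter.unusedSectionVars false

open scoped Manifold ContDiff Topology
open Set Filter Pool.Agent.H718R2.G Pool.Agent.H728R2.OS
open Pool.Agent.Q192.FT (IsI emb em pr qq em_apply pr_em em_pr_add qq_em qq_qq pr_qq
  pr_int_iff qq_eq_iff qq_zero_iff core_iff lift_iter fderiv_lift noBdd_lift noBdd_transport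
  iter1 iter2 cda2 HypFin tor_eq_iff)
open Pool.Agent.Y504.CO (NoBdd HypAt)
open Q263.IC

universe u

namespace Q263.DH

variable {n d : ℕ} {N : Type u} [TopologicalSpace N] [T2Space N] [CompactSpace N]
  [ChartedSpace (V n) N] [IsManifold (𝓡 n) ∞ N] {r : ℕ∞} {E : V n → N}

theorem idx {k : ℕ} (hk : 1 ≤ k) (j : ℤ) :
    ((j % k).toNat + 1 < k ∧ ((j + 1) % k).toNat = (j % k).toNat + 1 ∧ (j + 1) / k = j / k) ∨
    ((j % k).toNat + 1 = k ∧ ((j + 1) % k).toNat = 0 ∧ (j + 1) / k = j / k + 1) := by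
  have hk0 : (0 : ℤ) < k := by exact_mod_cast hk
  have h0 := Int.emod_nonneg j hk0.ne'
  have h1 := Int.emod_lt_of_pos j hk0
  have h2 := Int.mul_ediv_add_emod j k
  by_cases h : j % k + 1 < k
  · left
    obtain ⟨e1, e2⟩ := (Int.ediv_emod_unique hk0 (a := j + 1) (r := j % k + 1) (q := j / k)).2
      ⟨by linarith, by omega, h⟩
    refine ⟨by omega, ?_, e1⟩
    rw [e2]
    omega
  · right
    obtain ⟨e1, e2⟩ := (Int.ediv_emod_unique hk0 (a := j + 1) (r := 0) (q := j / k + 1)).2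
      ⟨by
        have : j % k + 1 = k := by omega
        linarith, le_rfl, hk0⟩
    refine ⟨by omega, ?_, e1⟩
    rw [e2]
    rfl

/-- the derivative of `E`, as a map of `V n` -/
noncomputable def JJ (E : V n → N) (v : V n) : V n →L[ℝ] V n := mfderiv (𝓡 n) (𝓡 n) E v

/-- the derivative of `T`, as a map of `V n` -/
noncomputable def DD (T : N → N) (q : N) : V n →L[ℝ] V n := mfderiv (𝓡 n) (𝓡 n) T q

/-- tangent vectors -/
def tm (q : N) (ξ : V n) : TangentBundle (𝓡 n) N := ⟨q, ξ⟩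

theorem tm_E (E : V n → N) (v a : V n) :
    tangentMap (𝓡 n) (𝓡 n) E ⟨v, a⟩ = tm (E v) (JJ E v a) := rfl

theorem tm_T (T : N → N) (q : N) (ξ : V n) :
    tangentMap (𝓡 n) (𝓡 n) T (tm q ξ) = tm (T q) (DD T q ξ) := rfl

theorem tm_inj {q : N} {ξ ξ' : V n} (h : tm q ξ = tm q ξ') : ξ = ξ' := by
  have h2 : (⟨q, ξ⟩ : TangentBundle (𝓡 n) N) = ⟨q, ξ'⟩ := h
  injection h2

/-- the inverse of the derivative of the tube -/
theorem exists_inv (hr : 1 ≤ r) (hE : Tube n d r E) (v : V n) :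
    ∃ K : V n →L[ℝ] V n, (∀ a : V n, K (JJ E v a) = a) ∧ ∀ ξ : V n, JJ E v (K ξ) = ξ := by
  have hinj : Function.Injective (JJ E v) := by
    intro a b hab
    refine tangent_inj hr hE (v := v) ?_
    rw [tm_E, tm_E, hab]
  let e : V n ≃ₗ[ℝ] V n := LinearEquiv.ofInjectiveEndo (JJ E v : V n →ₗ[ℝ] V n) hinj
  have he : ∀ a, e a = JJ E v a := fun a => rfl
  refine ⟨(e.symm : V n →ₗ[ℝ] V n).toContinuousLinearMap, fun a => ?_, fun ξ => ?_⟩
  · exact e.symm_apply_apply a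
  · rw [← he]
    exact e.apply_symm_apply ξ

theorem tangent_iter {T : N → N} (hTi : ∀ k : ℕ, ContMDiff (𝓡 n) (𝓡 n) 1 (T^[k])) (i j : ℕ)
    (w : TangentBundle (𝓡 n) N) :
    tangentMap (𝓡 n) (𝓡 n) (T^[i + j]) w =
      tangentMap (𝓡 n) (𝓡 n) (T^[i]) (tangentMap (𝓡 n) (𝓡 n) (T^[j]) w) := by
  rw [Function.iterate_add]
  exact tangentMap_comp_at w ((hTi i _).mdifferentiableAt (by norm_num))
    ((hTi j _).mdifferentiableAt (by norm_num))

theorem tangent_zero (T : N → N) (w : TangentBundle (𝓡 n) N) :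
    tangentMap (𝓡 n) (𝓡 n) (T^[0]) w = w := by
  show tangentMap (𝓡 n) (𝓡 n) (id : N → N) w = w
  rw [tangentMap_id]
  rfl

/-- bounded orbits of tangent vectors at a periodic point of the core -/
theorem core_zero (hr : 1 ≤ r) (hd : d ≤ n) (hE : Tube n d r E) (G : DiffM n N r) {m : ℕ}
    {g : Torus d ≃ₜ Torus d} (hg : IsHyperbolic toTorus g (ChainRec g))
    (hdyn : ∀ x y, toTorus y = g (toTorus x) → G^[m] (E (emb n d x)) = E (emb n d y))
    (hlin : ∀ (x : ℤ → Fin d → ℝ) (a : ℤ → V n),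
      (∀ j, tangentMap (𝓡 n) (𝓡 n) (G^[m]) (tangentMap (𝓡 n) (𝓡 n) E ⟨emb n d (x j), a j⟩) =
        tangentMap (𝓡 n) (𝓡 n) E ⟨emb n d (x (j + 1)), a (j + 1)⟩) →
      (∃ C : ℝ, ∀ j, ‖a j‖ ≤ C) → ∀ j, qq n d (a j) = 0)
    {x₀ : Fin d → ℝ} {k : ℕ} (hk : 1 ≤ k) (hper : G^[k] (E (emb n d x₀)) = E (emb n d x₀))
    (ξ : ℤ → V n) (hξb : ∃ C : ℝ, ∀ i, ‖ξ i‖ ≤ C)
    (hξ : ∀ i, tangentMap (𝓡 n) (𝓡 n) (G^[k]) (tm (E (emb n d x₀)) (ξ i)) =
      tm (E (emb n d x₀)) (ξ (i + 1))) : ξ 0 = 0 := by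
  obtain ⟨C, hC⟩ := hξb
  have hC0 : 0 ≤ C := (norm_nonneg _).trans (hC 0)
  have hTi : ∀ i : ℕ, ContMDiff (𝓡 n) (𝓡 n) 1 (G^[i]) := fun i => iter1 hr G i
  -- the torus coordinates
  have hcoreG : ∀ (A : (Fin d → ℝ) → (Fin d → ℝ)), IsLift toTorus A g → ∀ (s : ℕ) (x : Fin d → ℝ),
      G^[m * s] (E (emb n d x)) = E (emb n d (A^[s] x)) := by
    intro A hA s x
    induction s with
    | zero => rfl
    | succ s ih =>
      rw [Nat.mul_succ, add_comm, Function.iterate_add_apply, ih, Function.iterate_succ_apply']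
      exact hdyn _ _ (hA _)
  have hmk : G^[m * k] (E (emb n d x₀)) = E (emb n d x₀) := by
    rw [mul_comm, Function.iterate_mul]
    exact Function.iterate_fixed hper m
  have hint : ∀ (A : (Fin d → ℝ) → (Fin d → ℝ)), IsLift toTorus A g →
      IsI (x₀ - A^[k] x₀) := by
    intro A hA
    have h1 := hmk
    rw [hcoreG A hA k] at h1
    have h2 := (hE.inj _ _).1 h1
    rw [← pr_int_iff hd] at h2
    have h3 := h2.1
    rwa [← em_apply, ← em_apply, pr_em, pr_em] at h3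
  have hgx : g^[k] (toTorus x₀) = toTorus x₀ := by
    obtain ⟨A, -, -, -, hA, -⟩ := hg
    rw [← lift_iter hA k]
    exact (tor_eq_iff _ _).2 (hint A hA)
  obtain ⟨A, hA1, hA, hno⟩ := noBdd_lift hg hk hgx
  have hAd : ∀ (s : ℕ) (y : Fin d → ℝ), HasFDerivAt (A^[s]) (fderiv ℝ (A^[s]) y) y := by
    intro s y
    have h1 : ContDiff ℝ 1 (A^[s]) := by
      induction s with
      | zero => exact contDiff_id
      | succ s ih => rw [Function.iterate_succ']; exact hA1.comp ih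
    exact (h1.differentiable (by norm_num) y).hasFDerivAt
  set p : N := E (emb n d x₀) with hp
  choose K hK1 hK2 using fun s : ℕ => exists_inv hr hE (emb n d (A^[s] x₀))
  -- the points and vectors
  let M : ℕ → V n →L[ℝ] V n := fun s => (K s).comp (DD (G^[m * s]) p)
  let x : ℤ → Fin d → ℝ := fun j => A^[(j % k).toNat] x₀
  let a : ℤ → V n := fun j => M (j % k).toNat (ξ (m * (j / k)))
  have hval : ∀ j : ℤ, tangentMap (𝓡 n) (𝓡 n) E ⟨emb n d (x j), a j⟩ =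
      tangentMap (𝓡 n) (𝓡 n) (G^[m * (j % k).toNat]) (tm p (ξ (m * (j / k)))) := by
    intro j
    rw [tm_E, tm_T, hcoreG A hA]
    congr 1
    exact hK2 _ _
  have hξm : ∀ (i : ℕ) (q : ℤ), tangentMap (𝓡 n) (𝓡 n) (G^[k * i]) (tm p (ξ q)) =
      tm p (ξ (q + i)) := by
    intro i
    induction i with
    | zero =>
      intro q
      rw [Nat.mul_zero, tangent_zero]
      simp
    | succ i ih =>
      intro q
      rw [Nat.mul_succ, add_comm, tangent_iter hTi, ih, hξ]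
      congr 2
      push_cast
      ring
  have hstep : ∀ j : ℤ, tangentMap (𝓡 n) (𝓡 n) (G^[m])
      (tangentMap (𝓡 n) (𝓡 n) E ⟨emb n d (x j), a j⟩) =
      tangentMap (𝓡 n) (𝓡 n) E ⟨emb n d (x (j + 1)), a (j + 1)⟩ := by
    intro j
    rw [hval, hval, ← tangent_iter hTi]
    rcases idx hk j with ⟨-, e1, e2⟩ | ⟨e0, e1, e2⟩
    · rw [e1, e2, Nat.mul_succ, add_comm]
    · rw [e1, e2]
      have e3 : m + m * (j % k).toNat = k * m := by
        calc m + m * (j % k).toNat = ((j % k).toNat + 1) * m := by ring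
          _ = k * m := by rw [e0]
      rw [e3, hξm, Nat.mul_zero, tangent_zero]
      congr 2
      ring
  have habd : ∃ C' : ℝ, ∀ j, ‖a j‖ ≤ C' := by
    refine ⟨(∑ s ∈ Finset.range k, ‖M s‖) * C, fun j => ?_⟩
    refine ((M (j % k).toNat).le_opNorm _).trans ?_
    refine mul_le_mul ?_ (hC _) (norm_nonneg _) (Finset.sum_nonneg fun s _ => norm_nonneg _)
    have hk0 : (0 : ℤ) < k := by exact_mod_cast hk
    have h0 := Int.emod_nonneg j hk0.ne'
    have h1 := Int.emod_lt_of_pos j hk0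
    exact Finset.single_le_sum (f := fun s => ‖M s‖) (fun s _ => norm_nonneg _)
      (Finset.mem_range.2 (by omega))
  have hq := hlin x a hstep habd
  -- tangent directions
  set s : ℤ → Fin d → ℝ := fun j => pr n hd (a j) with hs
  have has : ∀ j, a j = emb n d (s j) := by
    intro j
    have h1 := em_pr_add hd (a j)
    rw [hq j, add_zero] at h1
    exact h1.symm
  have htan : ∀ (y b : Fin d → ℝ), tangentMap (𝓡 n) (𝓡 n) (G^[m])
      (tangentMap (𝓡 n) (𝓡 n) E ⟨emb n d y, emb n d b⟩) =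
      tangentMap (𝓡 n) (𝓡 n) E ⟨emb n d (A y), emb n d (fderiv ℝ A y b)⟩ := by
    intro y b
    have hfun : (G^[m] ∘ (E ∘ em n d)) = (E ∘ em n d) ∘ A := by
      funext z
      exact hdyn _ _ (hA z)
    have hemd : ∀ z, MDifferentiableAt 𝓘(ℝ, Fin d → ℝ) (𝓡 n) (em n d) z := fun z =>
      (em n d).differentiableAt.mdifferentiableAt
    have hEem : ∀ z, MDifferentiableAt 𝓘(ℝ, Fin d → ℝ) (𝓡 n) (E ∘ em n d) z := fun z =>
      (mdiff_E hr hE _).comp z (hemd z)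
    have hAmd : MDifferentiableAt 𝓘(ℝ, Fin d → ℝ) 𝓘(ℝ, Fin d → ℝ) A y :=
      (hAd 1 y).differentiableAt.mdifferentiableAt
    have hGmd : MDifferentiableAt (𝓡 n) (𝓡 n) (G^[m]) (E (em n d y)) :=
      (hTi m _).mdifferentiableAt (by norm_num)
    have hem2 : ∀ z c, tangentMap 𝓘(ℝ, Fin d → ℝ) (𝓡 n) (em n d) ⟨z, c⟩ =
        (⟨em n d z, em n d c⟩ : TangentBundle (𝓡 n) (V n)) := by
      intro z c
      show (⟨em n d z, mfderiv 𝓘(ℝ, Fin d → ℝ) (𝓡 n) (em n d) z c⟩ :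
        TangentBundle (𝓡 n) (V n)) = _
      rw [mfderiv_eq_fderiv, ContinuousLinearMap.fderiv]
      rfl
    have h1 : tangentMap 𝓘(ℝ, Fin d → ℝ) (𝓡 n) (G^[m] ∘ (E ∘ em n d)) ⟨y, b⟩ =
        tangentMap (𝓡 n) (𝓡 n) (G^[m])
          (tangentMap 𝓘(ℝ, Fin d → ℝ) (𝓡 n) (E ∘ em n d) ⟨y, b⟩) :=
      tangentMap_comp_at ⟨y, b⟩ hGmd (hEem y)
    have h2 : ∀ z c, tangentMap 𝓘(ℝ, Fin d → ℝ) (𝓡 n) (E ∘ em n d) ⟨z, c⟩ =
        tangentMap (𝓡 n) (𝓡 n) E ⟨em n d z, em n d c⟩ := by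
      intro z c
      rw [← hem2]
      exact tangentMap_comp_at ⟨z, c⟩ (mdiff_E hr hE _) (hemd z)
    have h3 : tangentMap 𝓘(ℝ, Fin d → ℝ) (𝓡 n) ((E ∘ em n d) ∘ A) ⟨y, b⟩ =
        tangentMap 𝓘(ℝ, Fin d → ℝ) (𝓡 n) (E ∘ em n d)
          (tangentMap 𝓘(ℝ, Fin d → ℝ) 𝓘(ℝ, Fin d → ℝ) A ⟨y, b⟩) :=
      tangentMap_comp_at ⟨y, b⟩ (hEem _) hAmd
    have h4 : tangentMap 𝓘(ℝ, Fin d → ℝ) 𝓘(ℝ, Fin d → ℝ) A ⟨y, b⟩ =
        ⟨A y, fderiv ℝ A y b⟩ := by
      show (⟨A y, mfderiv 𝓘(ℝ, Fin d → ℝ) 𝓘(ℝ, Fin d → ℝ) A y b⟩ :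
        TangentBundle 𝓘(ℝ, Fin d → ℝ) (Fin d → ℝ)) = _
      rw [mfderiv_eq_fderiv]
      rfl
    have h5 := h1.trans (congrArg (tangentMap (𝓡 n) (𝓡 n) (G^[m])) (h2 y b))
    have h6 := h3.trans ((congrArg (tangentMap 𝓘(ℝ, Fin d → ℝ) (𝓡 n) (E ∘ em n d)) h4).trans
      (h2 (A y) (fderiv ℝ A y b)))
    have h7 := congrArg (fun (F : (Fin d → ℝ) → N) => tangentMap 𝓘(ℝ, Fin d → ℝ) (𝓡 n) F
      (⟨y, b⟩ : TangentBundle 𝓘(ℝ, Fin d → ℝ) (Fin d → ℝ))) hfun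
    exact h5.symm.trans (h7.trans h6)
  have hDA : ∀ j, s (j + 1) = fderiv ℝ A (x j) (s j) := by
    intro j
    have h1 := hstep j
    rw [has j, has (j + 1), htan] at h1
    have h2 : IsI (x (j + 1) - A (x j)) := by
      have h3 : E (emb n d (A (x j))) = E (emb n d (x (j + 1))) :=
        congrArg Bundle.TotalSpace.proj h1
      have h4 := (hE.inj _ _).1 h3
      rw [← pr_int_iff hd] at h4
      have h5 := h4.1
      rwa [← em_apply, ← em_apply, pr_em, pr_em] at h5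
    have h6 := tangent_int hr hd hE (em n d (A (x j))) (emb n d (fderiv ℝ A (x j) (s j))) h2
    rw [← map_add, add_sub_cancel] at h6
    have h7 := tangent_inj hr hE ((h6.trans h1).symm)
    have h8 := congrArg (pr n hd) h7
    rwa [← em_apply, ← em_apply, pr_em, pr_em] at h8
  have hDAk : ∀ q : ℤ, s (k * (q + 1)) = fderiv ℝ (A^[k]) x₀ (s (k * q)) := by
    intro q
    have h1 : ∀ i : ℕ, i ≤ k → s (k * q + i) = fderiv ℝ (A^[i]) x₀ (s (k * q)) := by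
      intro i
      induction i with
      | zero =>
        intro _
        have e : fderiv ℝ (A^[0]) x₀ = ContinuousLinearMap.id ℝ _ := fderiv_id
        rw [e]
        simp
      | succ i ih =>
        intro hi
        have e1 : fderiv ℝ (A^[i + 1]) x₀ = fderiv ℝ A (A^[i] x₀) ∘L fderiv ℝ (A^[i]) x₀ := by
          rw [Function.iterate_succ']
          exact ((hAd 1 _).comp x₀ (hAd i x₀)).fderiv
        have e2 : x (k * q + i) = A^[i] x₀ := by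
          have h2 : (((k : ℤ) * q + i) % k).toNat = i := by
            rw [add_comm, Int.add_mul_emod_self_left, Int.emod_eq_of_lt (by positivity)
              (by exact_mod_cast hi)]
            simp
          show A^[(((k : ℤ) * q + i) % k).toNat] x₀ = _
          rw [h2]
        rw [e1, ContinuousLinearMap.comp_apply, ← ih (by omega), ← e2, ← hDA]
        congr 1
        push_cast
        ring
    have h2 := h1 k le_rfl
    rw [← h2]
    congr 1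
    ring
  have hzero := hno (fun q => s (k * q)) (by
    obtain ⟨C', hC'⟩ := habd
    refine ⟨‖pr n hd‖ * C', fun q => ?_⟩
    exact ((pr n hd).le_opNorm _).trans (mul_le_mul_of_nonneg_left (hC' _) (norm_nonneg _)))
    hDAk 0
  have ha0 : a 0 = 0 := by
    have h1 : s 0 = 0 := by
      have h2 : s ((k : ℤ) * 0) = 0 := hzero
      rwa [mul_zero] at h2
    rw [has 0, h1]
    exact map_zero (em n d)
  have h1 := hval 0
  rw [ha0, tm_E, map_zero] at h1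
  have hx0 : x 0 = x₀ := by
    show A^[((0 : ℤ) % k).toNat] x₀ = x₀
    simp
  rw [hx0] at h1
  have h2 : (((0 : ℤ) % k).toNat) = 0 := by simp
  rw [h2, Nat.mul_zero, tangent_zero] at h1
  have h3 := tm_inj h1
  rw [Int.zero_ediv, mul_zero] at h3
  exact h3.symm

theorem tangent_conj' {e : V n → N} {T : N → N} (hT : ContMDiff (𝓡 n) (𝓡 n) 1 T) {Φ : V n → V n}
    {v : V n} (he : MDifferentiableAt (𝓡 n) (𝓡 n) e v)
    (he' : MDifferentiableAt (𝓡 n) (𝓡 n) e (Φ v)) (hΦ : DifferentiableAt ℝ Φ v)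
    (hc : ∀ᶠ w in 𝓝 v, T (e w) = e (Φ w)) (a : V n) :
    tangentMap (𝓡 n) (𝓡 n) T (tangentMap (𝓡 n) (𝓡 n) e ⟨v, a⟩) =
      tangentMap (𝓡 n) (𝓡 n) e ⟨Φ v, fderiv ℝ Φ v a⟩ := by
  have hTd : MDifferentiableAt (𝓡 n) (𝓡 n) T (e v) := (hT _).mdifferentiableAt (by norm_num)
  have hΦd : MDifferentiableAt (𝓡 n) (𝓡 n) Φ v := hΦ.mdifferentiableAt
  have h1 : tangentMap (𝓡 n) (𝓡 n) (T ∘ e) ⟨v, a⟩ =
      tangentMap (𝓡 n) (𝓡 n) T (tangentMap (𝓡 n) (𝓡 n) e ⟨v, a⟩) :=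
    tangentMap_comp_at ⟨v, a⟩ hTd he
  have h2 : tangentMap (𝓡 n) (𝓡 n) (e ∘ Φ) ⟨v, a⟩ =
      tangentMap (𝓡 n) (𝓡 n) e (tangentMap (𝓡 n) (𝓡 n) Φ ⟨v, a⟩) :=
    tangentMap_comp_at ⟨v, a⟩ he' hΦd
  have h3 : tangentMap (𝓡 n) (𝓡 n) Φ ⟨v, a⟩ = ⟨Φ v, fderiv ℝ Φ v a⟩ := by
    show (⟨Φ v, mfderiv (𝓡 n) (𝓡 n) Φ v a⟩ : TangentBundle (𝓡 n) (V n)) = _
    rw [mfderiv_eq_fderiv]
    rfl
  rw [← h1, ← h3, ← h2]
  have h4 : (T ∘ e) =ᶠ[𝓝 v] (e ∘ Φ) := hc
  have h5 : T (e v) = e (Φ v) := h4.self_of_nhds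
  have h6 : mfderiv (𝓡 n) (𝓡 n) (T ∘ e) v = mfderiv (𝓡 n) (𝓡 n) (e ∘ Φ) v := h4.mfderiv_eq
  show (⟨T (e v), mfderiv (𝓡 n) (𝓡 n) (T ∘ e) v a⟩ : TangentBundle (𝓡 n) N) =
    ⟨e (Φ v), mfderiv (𝓡 n) (𝓡 n) (e ∘ Φ) v a⟩
  rw [h6]
  exact Bundle.TotalSpace.ext h5 HEq.rfl

/-- **Hyperbolicity of the periodic points on the core.** -/
theorem hypAt_core (hr : 1 ≤ r) (hd : d ≤ n) (hE : Tube n d r E) (G : DiffM n N r) {m : ℕ}
    {g : Torus d ≃ₜ Torus d} (hg : IsHyperbolic toTorus g (ChainRec g))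
    (hdyn : ∀ x y, toTorus y = g (toTorus x) → G^[m] (E (emb n d x)) = E (emb n d y))
    (hlin : ∀ (x : ℤ → Fin d → ℝ) (a : ℤ → V n),
      (∀ j, tangentMap (𝓡 n) (𝓡 n) (G^[m]) (tangentMap (𝓡 n) (𝓡 n) E ⟨emb n d (x j), a j⟩) =
        tangentMap (𝓡 n) (𝓡 n) E ⟨emb n d (x (j + 1)), a (j + 1)⟩) →
      (∃ C : ℝ, ∀ j, ‖a j‖ ≤ C) → ∀ j, qq n d (a j) = 0)
    (x₀ : Fin d → ℝ) : HypAt n G (E (emb n d x₀)) := by
  intro k hk hper ψ hψ hp v hbd hv i₀
  set p : N := E (emb n d x₀) with hpdef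
  obtain ⟨C, hC⟩ := hbd
  have hpt : ψ p ∈ ψ.target := ψ.map_source hp
  have hsymm : ContMDiffAt (𝓡 n) (𝓡 n) 1 ψ.symm (ψ p) :=
    (contMDiffAt_symm_of_mem_maximalAtlas hψ hpt).of_le (by simp)
  have hψd : ContMDiffAt (𝓡 n) (𝓡 n) 1 ψ p :=
    (contMDiffAt_of_mem_maximalAtlas hψ hp).of_le (by simp)
  set Φ : V n → V n := fun v => ψ (G^[k] (ψ.symm v)) with hΦ
  have hΦp : Φ (ψ p) = ψ p := by
    show ψ (G^[k] (ψ.symm (ψ p))) = ψ p
    rw [ψ.left_inv hp, hper]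
  have hΦd : ContDiffAt ℝ 1 Φ (ψ p) := cda2 (iter1 hr G k) hψ hψ hp (by rw [hper]; exact hp)
  have hconj : ∀ᶠ w in 𝓝 (ψ p), G^[k] (ψ.symm w) = ψ.symm (Φ w) := by
    have h1 : Tendsto (fun w => G^[k] (ψ.symm w)) (𝓝 (ψ p)) (𝓝 p) := by
      have h2 : ContinuousAt (fun w => G^[k] (ψ.symm w)) (ψ p) :=
        ContinuousAt.comp (g := G^[k]) (G.continuous.iterate k).continuousAt
          (ψ.symm.continuousAt hpt)
      have h3 := h2.tendsto
      rwa [ψ.left_inv hp, hper] at h3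
    filter_upwards [h1.eventually (ψ.open_source.mem_nhds hp)] with w hw
    exact (ψ.left_inv hw).symm
  have hinj : ∀ b : V n, JJ ψ.symm (ψ p) b = 0 → b = 0 := by
    intro b hb
    have hid : (ψ ∘ ψ.symm) =ᶠ[𝓝 (ψ p)] id := by
      filter_upwards [ψ.open_target.mem_nhds hpt] with w hw
      exact ψ.right_inv hw
    have hψd' : MDifferentiableAt (𝓡 n) (𝓡 n) ψ (ψ.symm (ψ p)) := by
      rw [ψ.left_inv hp]
      exact hψd.mdifferentiableAt one_ne_zero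
    have h5 := mfderiv_comp (ψ p) hψd' (hsymm.mdifferentiableAt one_ne_zero)
    have h6 : mfderiv (𝓡 n) (𝓡 n) (ψ ∘ ψ.symm) (ψ p) =
        mfderiv (𝓡 n) (𝓡 n) (id : V n → V n) (ψ p) := hid.mfderiv_eq
    rw [h5, mfderiv_id] at h6
    have h7 : mfderiv (𝓡 n) (𝓡 n) ψ (ψ.symm (ψ p)) (mfderiv (𝓡 n) (𝓡 n) ψ.symm (ψ p) b) = b :=
      congrArg (fun L : V n →L[ℝ] V n => L b) h6
    have h8 : mfderiv (𝓡 n) (𝓡 n) ψ.symm (ψ p) b = 0 := hb
    rw [h8, map_zero] at h7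
    exact h7.symm
  have hξ : ∀ i : ℤ, tangentMap (𝓡 n) (𝓡 n) (G^[k]) (tm p (JJ ψ.symm (ψ p) (v (i + i₀)))) =
      tm p (JJ ψ.symm (ψ p) (v (i + 1 + i₀))) := by
    intro i
    have hbase : ∀ b : V n, tangentMap (𝓡 n) (𝓡 n) ψ.symm ⟨ψ p, b⟩ =
        tm p (JJ ψ.symm (ψ p) b) := by
      intro b
      rw [tm_E, ψ.left_inv hp]
    have he' : MDifferentiableAt (𝓡 n) (𝓡 n) ψ.symm (Φ (ψ p)) := by
      rw [hΦp]
      exact hsymm.mdifferentiableAt one_ne_zero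
    have h1 := tangent_conj' (iter1 hr G k) (hsymm.mdifferentiableAt one_ne_zero) he'
      (hΦd.differentiableAt one_ne_zero) hconj (v (i + i₀))
    rw [hΦp, hbase, hbase] at h1
    rw [h1, show i + 1 + i₀ = i + i₀ + 1 by ring, hv]
  have h1 := core_zero hr hd hE G hg hdyn hlin hk hper
    (fun i => JJ ψ.symm (ψ p) (v (i + i₀))) ⟨‖JJ ψ.symm (ψ p)‖ * C, fun i =>
      ((JJ ψ.symm (ψ p)).le_opNorm _).trans
        (mul_le_mul_of_nonneg_left (hC _) (norm_nonneg _))⟩ hξ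
  have h2 := hinj _ h1
  rwa [zero_add] at h2

/-- hyperbolicity at the other points of the orbit -/
theorem hypAt_iter (hr : 1 ≤ r) (G : DiffM n N r) {p : N} (h : HypAt n G p) (i : ℕ) :
    HypAt n G (G^[i] p) := by
  intro k hk hper ψ hψ hp
  have hinj : Function.Injective (G : N → N) := G.injective
  have hper' : G^[k] p = p := by
    apply hinj.iterate i
    rw [← Function.iterate_add_apply, add_comm, Function.iterate_add_apply]
    exact hper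
  have h1 := noBdd_transport hr G (i := i) hper' (ψ := chartAt (V n) p) (ψ' := ψ)
    (IsManifold.chart_mem_maximalAtlas _) hψ (mem_chart_source _ _) hp
    (h k hk hper' _ (IsManifold.chart_mem_maximalAtlas _) (mem_chart_source _ _))
  exact h1

end Q263.DH
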