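import Mathlib
import Pool.Agent.H718R2.G0
import Pool.Agent.H728R2.OS.Defs

/-! Uniform closeness, and upper semicontinuity of the chain recurrent set. -/

set_option autoImplicit false
set_option linter.unusedSectionVars false

open scoped Manifold ContDiff Topology
open Set Filter Pool.Agent.H718R2.G Pool.Agent.H728R2.OS

universe u

namespace Q263.DH

section manifold

variable {n : ℕ} {N : Type u} [MetricSpace N] [CompactSpace N] [ChartedSpace (V n) N]
  [IsManifold (𝓡 n) ∞ N] {r : ℕ∞}

theorem unif_nhd (F : DiffM n N r) {η : ℝ} (hη : 0 < η) :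
    ∃ U : Set (DiffM n N r), IsOpen[strongTop n N r] U ∧ F ∈ U ∧
      ∀ G ∈ U, ∀ x, dist (G x) (F x) < η := by
  classical
  have hex : ∀ x : N, ∃ K : Set N, IsCompact K ∧ x ∈ interior K ∧
      K ⊆ (chartAt (V n) x).source ∩ F ⁻¹' (chartAt (V n) (F x)).source := fun x =>
    exists_compact_subset ((chartAt (V n) x).open_source.inter
      ((chartAt (V n) (F x)).open_source.preimage F.continuous))
      ⟨mem_chart_source _ _, mem_chart_source _ _⟩
  choose K hK1 hK2 hK3 using hex
  obtain ⟨t, -, ht⟩ := isCompact_univ.elim_nhds_subcover (fun x => interior (K x))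
    (fun x _ => isOpen_interior.mem_nhds (hK2 x))
  have hδ : ∀ x : N, ∃ δ : ℝ, 0 < δ ∧ ∀ y ∈ K x, ∀ w : V n,
      dist w (chartAt (V n) (F x) (F y)) < δ →
      dist ((chartAt (V n) (F x)).symm w) (F y) < η := by
    intro x
    set ψ := chartAt (V n) (F x) with hψ
    have hS : IsCompact ((fun y => ψ (F y)) '' K x) := by
      refine (hK1 x).image_of_continuousOn ?_
      exact ψ.continuousOn.comp F.continuous.continuousOn fun y hy => (hK3 x hy).2
    have hc : ∀ a ∈ (fun y => ψ (F y)) '' K x, ContinuousAt ψ.symm a := by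
      rintro _ ⟨y, hy, rfl⟩
      exact ψ.symm.continuousAt (ψ.map_source (hK3 x hy).2)
    have h1 := hS.uniformContinuousAt_of_continuousAt _ hc (Metric.dist_mem_uniformity hη)
    obtain ⟨δ, hδ, h2⟩ := Metric.mem_uniformity_dist.1 h1
    refine ⟨δ, hδ, fun y hy w hw => ?_⟩
    have h3 := h2 (show dist (ψ (F y)) w < δ by rw [dist_comm]; exact hw) ⟨y, hy, rfl⟩
    have h4 : dist (ψ.symm (ψ (F y))) (ψ.symm w) < η := h3
    rw [ψ.left_inv (hK3 x hy).2, dist_comm] at h4
    exact h4
  choose δ hδ1 hδ2 using hδ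
  let c : Fin t.card → N := fun i => (t.equivFin.symm i : N)
  let D : StrongData n N :=
    { ι := Fin t.card
      φ := fun i => chartAt (V n) (c i)
      ψ := fun i => chartAt (V n) (F (c i))
      K := fun i => K (c i)
      ε := fun i => δ (c i)
      φ_mem := fun i => IsManifold.chart_mem_maximalAtlas _
      ψ_mem := fun i => IsManifold.chart_mem_maximalAtlas _
      lf := locallyFinite_of_finite _
      compact := fun i => hK1 _
      sub := fun i x hx => (hK3 _ hx).1
      pos := fun i => hδ1 _ }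
  have hD : ∀ i, ∀ x ∈ D.K i, F x ∈ (D.ψ i).source := fun i x hx => (hK3 _ hx).2
  refine ⟨strongNbhd D 0 F, ?_, ?_, ?_⟩
  · exact TopologicalSpace.isOpen_generateFrom_of_mem ⟨D, 0, F, by simp, hD, rfl⟩
  · intro i x hx
    refine ⟨hD i x hx, fun m _ => ?_⟩
    rw [sub_self, norm_zero]
    exact D.pos i
  · intro G hG x
    obtain ⟨y, hy, hxy⟩ := mem_iUnion₂.1 (ht (mem_univ x))
    obtain ⟨i, hi⟩ : ∃ i, c i = y := ⟨t.equivFin ⟨y, hy⟩, by
      show ((t.equivFin.symm (t.equivFin ⟨y, hy⟩) : t) : N) = y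
      rw [Equiv.symm_apply_apply]⟩
    subst hi
    have hxK : x ∈ K (c i) := interior_subset hxy
    obtain ⟨h1, h2⟩ := hG i x hxK
    have h3 := h2 0 le_rfl
    have h4 : ‖iteratedFDeriv ℝ 0 (chartAt (V n) (F (c i)) ∘ G ∘ (chartAt (V n) (c i)).symm)
          (chartAt (V n) (c i) x) -
        iteratedFDeriv ℝ 0 (chartAt (V n) (F (c i)) ∘ F ∘ (chartAt (V n) (c i)).symm)
          (chartAt (V n) (c i) x)‖ =
        dist (chartAt (V n) (F (c i)) (G x)) (chartAt (V n) (F (c i)) (F x)) := by
      rw [dist_eq_norm, iteratedFDeriv_zero_eq_comp, iteratedFDeriv_zero_eq_comp]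
      simp only [Function.comp, ← map_sub]
      rw [LinearIsometryEquiv.norm_map]
      rw [(chartAt (V n) (c i)).left_inv (hK3 _ hxK).1]
    have h5 : dist (chartAt (V n) (F (c i)) (G x)) (chartAt (V n) (F (c i)) (F x)) < δ (c i) := by
      rw [← h4]
      exact h3
    have h6 := hδ2 (c i) x hxK _ h5
    rwa [(chartAt (V n) (F (c i))).left_inv h1] at h6

end manifold

section metric

variable {X : Type u} [MetricSpace X] [CompactSpace X]

theorem unif_iter {F : X → X} (hF : Continuous F) (m : ℕ) {η : ℝ} (hη : 0 < η) :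
    ∃ η' : ℝ, 0 < η' ∧ ∀ G : X → X, (∀ x, dist (G x) (F x) < η') →
      ∀ x, dist (G^[m] x) (F^[m] x) < η := by
  induction m generalizing η with
  | zero => exact ⟨1, one_pos, fun G _ x => by simpa using hη⟩
  | succ m ih =>
    have hu : UniformContinuous F := CompactSpace.uniformContinuous_of_continuous hF
    obtain ⟨δ, hδ, h1⟩ := Metric.uniformContinuous_iff.1 hu (η / 2) (half_pos hη)
    obtain ⟨η', hη', h2⟩ := ih hδ
    refine ⟨min η' (η / 2), lt_min hη' (half_pos hη), fun G hG x => ?_⟩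
    rw [Function.iterate_succ_apply', Function.iterate_succ_apply']
    have h3 := h2 G (fun y => (hG y).trans_le (min_le_left _ _)) x
    have h4 := h1 h3
    have h5 := (hG (G^[m] x)).trans_le (min_le_right _ _)
    calc dist (G (G^[m] x)) (F (F^[m] x)) ≤ dist (G (G^[m] x)) (F (G^[m] x)) +
        dist (F (G^[m] x)) (F (F^[m] x)) := dist_triangle _ _ _
      _ < η := by linarith

/-- upper semicontinuity of the chain recurrent set -/
theorem usc (F : X ≃ₜ X) {O : Set X} (hO : IsOpen O) (h : ChainRec F ⊆ O) :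
    ∃ η : ℝ, 0 < η ∧ ∀ G : X ≃ₜ X, (∀ x, dist (G x) (F x) < η) → ChainRec G ⊆ O := by
  have key : ∀ x ∉ O, ∃ δ : ℝ, 0 < δ ∧ ∀ G : X ≃ₜ X, (∀ x, dist (G x) (F x) < δ) →
      ∀ y, dist y x < δ → y ∉ ChainRec G := by
    intro x hx
    have hx1 : x ∉ ChainRec F := fun h1 => hx (h h1)
    simp only [ChainRec, Set.mem_setOf_eq, not_forall] at hx1
    obtain ⟨ε, hε, hno⟩ := hx1
    obtain ⟨δ, hδ, hFδ⟩ := Metric.continuousAt_iff.1 (F.continuous.continuousAt (x := x)) (ε / 4)
      (by positivity)
    refine ⟨min δ (ε / 4), lt_min hδ (by positivity), fun G hG y hy hyC => hno ?_⟩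
    have hy1 : dist y x < δ := hy.trans_le (min_le_left _ _)
    have hy2 : dist y x < ε / 4 := hy.trans_le (min_le_right _ _)
    have hG2 : ∀ z, dist (G z) (F z) < ε / 4 := fun z => (hG z).trans_le (min_le_right _ _)
    obtain ⟨k, c, hk, h0, hk1, hc⟩ := hyC (ε / 4) (by positivity)
    refine ⟨k, fun i => if i = 0 ∨ i = k then x else c i, hk, by simp, by simp, fun i hi => ?_⟩
    have e1 : dist (F (if i = 0 ∨ i = k then x else c i)) (F (c i)) < ε / 4 := by
      by_cases hi0 : i = 0
      · rw [if_pos (Or.inl hi0), hi0, h0, dist_comm]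
        exact hFδ hy1
      · rw [if_neg (by omega), dist_self]
        positivity
    have e2 : dist (F (c i)) (G (c i)) < ε / 4 := by
      rw [dist_comm]
      exact hG2 _
    have e3 := hc i hi
    have e4 : dist (c (i + 1)) (if i + 1 = 0 ∨ i + 1 = k then x else c (i + 1)) < ε / 4 := by
      by_cases hi0 : i + 1 = k
      · rw [if_pos (Or.inr hi0), hi0, hk1]
        exact hy2
      · rw [if_neg (by omega), dist_self]
        positivity
    calc dist (F (if i = 0 ∨ i = k then x else c i)) (if i + 1 = 0 ∨ i + 1 = k then x else c (i + 1))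
        ≤ dist (F (if i = 0 ∨ i = k then x else c i)) (F (c i)) +
          dist (F (c i)) (G (c i)) + dist (G (c i)) (c (i + 1)) +
          dist (c (i + 1)) (if i + 1 = 0 ∨ i + 1 = k then x else c (i + 1)) := by
          have t1 := dist_triangle (F (if i = 0 ∨ i = k then x else c i)) (F (c i))
            (if i + 1 = 0 ∨ i + 1 = k then x else c (i + 1))
          have t2 := dist_triangle (F (c i)) (G (c i))
            (if i + 1 = 0 ∨ i + 1 = k then x else c (i + 1))
          have t3 := dist_triangle (G (c i)) (c (i + 1))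
            (if i + 1 = 0 ∨ i + 1 = k then x else c (i + 1))
          linarith
      _ < ε := by linarith
  choose! δ hδ hδ2 using key
  have hcomp : IsCompact Oᶜ := hO.isClosed_compl.isCompact
  obtain ⟨t, ht1, ht2⟩ := hcomp.elim_nhds_subcover (fun x => Metric.ball x (δ x))
    (fun x hx => Metric.ball_mem_nhds x (hδ x hx))
  rcases t.eq_empty_or_nonempty with rfl | hne
  · refine ⟨1, one_pos, fun G _ y _ => ?_⟩
    by_contra hy
    have := ht2 hy
    simp at this
  · refine ⟨t.inf' hne δ, ?_, fun G hG y hy => ?_⟩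
    · rw [Finset.lt_inf'_iff]
      exact fun x hx => hδ x (ht1 x hx)
    · by_contra hyO
      obtain ⟨x, hx, hyx⟩ := mem_iUnion₂.1 (ht2 hyO)
      exact hδ2 x (ht1 x hx) G (fun z => (hG z).trans_le (Finset.inf'_le _ hx)) y hyx hy

theorem chainRec_comm {f : X ≃ₜ X} {T : X → X} (hT : Continuous T) (h : ∀ x, T (f x) = f (T x))
    {x : X} (hx : x ∈ ChainRec f) : T x ∈ ChainRec f := by
  intro ε hε
  have hu : UniformContinuous T := CompactSpace.uniformContinuous_of_continuous hT
  obtain ⟨δ, hδ, h'⟩ := Metric.uniformContinuous_iff.1 hu ε hε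
  obtain ⟨n, c, hn, h0, h1, h2⟩ := hx δ hδ
  refine ⟨n, fun i => T (c i), hn, congrArg T h0, congrArg T h1, fun i hi => ?_⟩
  rw [← h]
  exact h' (h2 i hi)

theorem chainRec_fwd {f : X ≃ₜ X} {x : X} (h : x ∈ ChainRec f) : f x ∈ ChainRec f :=
  chainRec_comm f.continuous (fun _ => rfl) h

theorem chainRec_bwd {f : X ≃ₜ X} {x : X} (h : x ∈ ChainRec f) : f.symm x ∈ ChainRec f :=
  chainRec_comm f.symm.continuous (fun x => by rw [f.symm_apply_apply, f.apply_symm_apply]) h

end metric

end Q263.DH
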