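import Mathlib
import Pool.Agent.Q263.DH.Lim
import Pool.Agent.Q263.DH.Unif

/-! Neighbourhoods of the core, and invariant neighbourhoods in the chain recurrent set. -/

set_option autoImplicit false
set_option linter.unusedSectionVars false

open scoped Manifold ContDiff Topology
open Set Filter Metric Pool.Agent.H718R2.G Pool.Agent.H728R2.OS
open Pool.Agent.Q192.FT (IsI emb em pr qq em_apply pr_em em_pr_add qq_em qq_qq pr_qq
  pr_int_iff qq_eq_iff qq_zero_iff core_iff)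
open Q263.IC

universe u

namespace Q263.DH

section tube

variable {n d : ℕ} {N : Type u} [MetricSpace N] [CompactSpace N]
  [ChartedSpace (V n) N] [IsManifold (𝓡 n) ∞ N] {r : ℕ∞} {E : V n → N}

theorem tube_open (hE : Tube n d r E) {S : Set (V n)} (hS : IsOpen S) : IsOpen (E '' S) := by
  rw [isOpen_iff_mem_nhds]
  rintro _ ⟨v, hv, rfl⟩
  obtain ⟨χ, -, hvt, hχ⟩ := hE.chart v
  have h1 : IsOpen (χ.symm '' (S ∩ χ.target)) :=
    χ.isOpen_image_symm_of_subset_target (hS.inter χ.open_target) inter_subset_right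
  refine mem_of_superset (h1.mem_nhds ⟨v, ⟨hv, hvt⟩, hχ v hvt⟩) ?_
  rintro _ ⟨w, ⟨hw, hwt⟩, rfl⟩
  exact ⟨w, hw, (hχ w hwt).symm⟩

/-- the core -/
def core (n d : ℕ) (E : V n → N) : Set N := range fun x : Fin d → ℝ => E (emb n d x)

theorem nhd_tube (hd : d ≤ n) (hE : Tube n d r E) {ε : ℝ} (hε : 0 < ε) :
    ∃ δ : ℝ, 0 < δ ∧ ∀ y ∈ thickening δ (core n d E), ∃ v, E v = y ∧ ‖qq n d v‖ < ε := by
  have hO : IsOpen (E '' {v | ‖qq n d v‖ < ε}) :=
    tube_open hE (isOpen_lt (qq n d).continuous.norm continuous_const)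
  have hsub : core n d E ⊆ E '' {v | ‖qq n d v‖ < ε} := by
    rintro _ ⟨x, rfl⟩
    refine ⟨emb n d x, ?_, rfl⟩
    show ‖qq n d (em n d x)‖ < ε
    rw [qq_em, norm_zero]
    exact hε
  obtain ⟨δ, hδ, h⟩ := (hE.core_compact hd).exists_thickening_subset_open hO hsub
  refine ⟨δ, hδ, fun y hy => ?_⟩
  obtain ⟨v, hv, rfl⟩ := h hy
  exact ⟨v, rfl, hv⟩

theorem tube_nhd (hd : d ≤ n) (hE : Tube n d r E) {O : Set N} (hO : IsOpen O)
    (h : core n d E ⊆ O) : ∃ ε : ℝ, 0 < ε ∧ ∀ v, ‖qq n d v‖ < ε → E v ∈ O := by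
  have hK : IsCompact (em n d '' Icc (0 : Fin d → ℝ) 1) := isCompact_Icc.image (em n d).continuous
  have hO' : IsOpen (E ⁻¹' O) := hO.preimage hE.smooth.continuous
  have hsub : em n d '' Icc (0 : Fin d → ℝ) 1 ⊆ E ⁻¹' O := by
    rintro _ ⟨x, -, rfl⟩
    exact h ⟨x, rfl⟩
  obtain ⟨δ, hδ, h1⟩ := hK.exists_thickening_subset_open hO' hsub
  refine ⟨δ, hδ, fun v hv => ?_⟩
  have e := E_red hd hE v 0
  rw [show emb n d (0 : Fin d → ℝ) = 0 from map_zero (em n d), add_zero, add_zero] at e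
  rw [e]
  refine h1 ?_
  rw [mem_thickening_iff]
  refine ⟨em n d (fr (pr n hd v)), ⟨_, fr_mem _, rfl⟩, ?_⟩
  rw [dist_eq_norm, ← em_apply, add_sub_cancel_left]
  exact hv

end tube

section sets

variable {X : Type u} [MetricSpace X] [CompactSpace X]

theorem two_sets {T : X → X} (hT : Continuous T) {A B : Set X} (hA : IsClosed A)
    (hB : IsClosed B) (hd : Disjoint A B) (hTA : ∀ a ∈ A, T a ∈ A) (hTB : ∀ b ∈ B, T b ∈ B)
    {δ₀ : ℝ} (hδ₀ : 0 < δ₀) :
    ∃ δ : ℝ, 0 < δ ∧ δ ≤ δ₀ ∧ Disjoint (thickening (2 * δ) A) (thickening (2 * δ) B) ∧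
      ∃ η : ℝ, 0 < η ∧ ∀ T' : X → X, (∀ x, dist (T' x) (T x) < η) → ∀ C : Set X,
        C ⊆ thickening δ A ∪ thickening δ B → (∀ x ∈ C, T' x ∈ C) →
        ∀ x ∈ C, (x ∈ thickening δ A ↔ T' x ∈ thickening δ A) := by
  obtain ⟨δ₁, hδ₁, hdis⟩ := hd.exists_thickenings hA.isCompact hB
  have hu : UniformContinuous T := CompactSpace.uniformContinuous_of_continuous hT
  obtain ⟨δ₂, hδ₂, h2⟩ := Metric.uniformContinuous_iff.1 hu (δ₁ / 2) (half_pos hδ₁)
  set δ : ℝ := min δ₀ (min (δ₁ / 2) δ₂) with hδ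
  have hδpos : 0 < δ := lt_min hδ₀ (lt_min (half_pos hδ₁) hδ₂)
  have e1 : δ ≤ δ₁ / 2 := (min_le_right _ _).trans (min_le_left _ _)
  have e2 : δ ≤ δ₂ := (min_le_right _ _).trans (min_le_right _ _)
  have hdis2 : Disjoint (thickening (2 * δ) A) (thickening (2 * δ) B) :=
    hdis.mono (thickening_mono (by linarith) _) (thickening_mono (by linarith) _)
  refine ⟨δ, hδpos, min_le_left _ _, hdis2, δ₁ / 2, half_pos hδ₁, ?_⟩
  intro T' hT' C hC hCi
  have hstep : ∀ S : Set X, (∀ a ∈ S, T a ∈ S) → ∀ x ∈ thickening δ S, T' x ∈ thickening δ₁ S := by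
    intro S hS x hx
    rw [mem_thickening_iff] at hx ⊢
    obtain ⟨a, ha, hxa⟩ := hx
    refine ⟨T a, hS a ha, ?_⟩
    have h3 := h2 (hxa.trans_le e2)
    have h4 := hT' x
    calc dist (T' x) (T a) ≤ dist (T' x) (T x) + dist (T x) (T a) := dist_triangle _ _ _
      _ < δ₁ := by linarith
  have hm1 : δ ≤ δ₁ := by linarith
  intro x hx
  constructor
  · intro h
    rcases hC (hCi x hx) with h5 | h5
    · exact h5
    · exact absurd (thickening_mono hm1 B h5) (Set.disjoint_left.1 hdis (hstep A hTA x h))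
  · intro h
    rcases hC hx with h5 | h5
    · exact h5
    · exact absurd (hstep B hTB x h5)
        (Set.disjoint_left.1 hdis (thickening_mono hm1 A h))

/-- bi-infinite orbits -/
theorem orbit (e : Equiv.Perm X) {C : Set X} (h1 : ∀ x ∈ C, e x ∈ C)
    (h2 : ∀ x ∈ C, e.symm x ∈ C) {y : X} (hy : y ∈ C) :
    ∃ z : ℤ → X, z 0 = y ∧ (∀ j, z (j + 1) = e (z j)) ∧ ∀ j, z j ∈ C := by
  refine ⟨fun j => (e ^ j) y, rfl, fun j => ?_, fun j => ?_⟩
  · show (e ^ (j + 1)) y = e ((e ^ j) y)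
    rw [add_comm, zpow_add, zpow_one]
    rfl
  · induction j using Int.induction_on with
    | zero => exact hy
    | succ i ih =>
      show (e ^ ((i : ℤ) + 1)) y ∈ C
      rw [add_comm, zpow_add, zpow_one]
      exact h1 _ ih
    | pred i ih =>
      show (e ^ (-(i : ℤ) - 1)) y ∈ C
      have e1 : (e ^ (-(i : ℤ) - 1)) y = e.symm ((e ^ (-(i : ℤ))) y) := by
        rw [sub_eq_add_neg, add_comm, zpow_add, zpow_neg_one]
        rfl
      rw [e1]
      exact h2 _ ih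

theorem orbit_stay {T : X → X} {S : Set X} {C : Set X} (h : ∀ x ∈ C, (x ∈ S ↔ T x ∈ S))
    {z : ℤ → X} (hz : ∀ j, z (j + 1) = T (z j)) (hC : ∀ j, z j ∈ C) (h0 : z 0 ∈ S) (j : ℤ) :
    z j ∈ S := by
  induction j using Int.induction_on with
  | zero => exact h0
  | succ i ih =>
    rw [hz]
    exact (h _ (hC _)).1 ih
  | pred i ih =>
    have h1 := hz (-(i : ℤ) - 1)
    rw [sub_add_cancel] at h1
    rw [h1] at ih
    exact (h _ (hC _)).2 ih

end sets

end Q263.DH
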