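import Mathlib
import Pool.Agent.Q263.DH.Def
import Pool.Agent.Q263.DH.Top
import Pool.Agent.Q263.DH.Hyp
import Pool.Agent.Q263.IC.Main
import Pool.Agent.Q192.FT.AMain

/-! One step: a perturbation which makes the chain recurrent set finite near one cycle of tori. -/

set_option autoImplicit false
set_option linter.unusedSectionVars false

open scoped Manifold ContDiff Topology
open Set Filter Metric Pool.Agent.H718R2.G Pool.Agent.H728R2.OS
open Pool.Agent.Q192.FT (IsI emb em pr qq em_apply pr_em em_pr_add qq_em qq_qq pr_qq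
  pr_int_iff qq_eq_iff qq_zero_iff core_iff cyc TameH HypFin Approx tameH_approx tor_surj'
  iter1 iter2 tor_eq_iff Reach cyc_eq)
open Pool.Agent.Y504.CO (NoBdd HypAt)
open Q263.IC

universe u

namespace Q263.DH

/-- the part of the cycle away from the core, and `Z` -/
def away {N : Type u} (F : N → N) (n d m : ℕ) (E : V n → N) (Z : Set N) : Set N :=
  Z ∪ ⋃ i : Fin m, ⋃ _ : 0 < (i : ℕ), F^[(i : ℕ)] '' core n d E

section perturbed

variable {n d : ℕ} {N : Type u} [MetricSpace N] [CompactSpace N]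
  [ChartedSpace (V n) N] [IsManifold (𝓡 n) ∞ N] {r : ℕ∞} {E : V n → N} {m : ℕ}
  {F G : DiffM n N r} {f g : Torus d ≃ₜ Torus d}

/-- The perturbation: `G = F` on `Zc`, and `G (E v) = F (E (v + τ v))`; the tube of radius `ε'` is
mapped by `F, …, F^(m-1)` to `Zc`. -/
structure Pt (F G : DiffM n N r) (d m : ℕ) (E : V n → N) (f g : Torus d ≃ₜ Torus d)
    (τ : V n → Fin d → ℝ) (Zc : Set N) (ε' : ℝ) : Prop where
  tau : ContDiff ℝ 1 τ
  away : ∀ y ∈ Zc, G y = F y
  tube : ∀ v, G (E v) = F (E (v + emb n d (τ v)))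
  conj : ∀ x, g (toTorus x) = f (toTorus (x + τ (emb n d x)))
  pos : 0 < ε'
  maps : ∀ v, ‖qq n d v‖ < ε' → ∀ i, 0 < i → i < m → F^[i] (E v) ∈ Zc

variable {τ : V n → Fin d → ℝ} {Zc : Set N} {ε' : ℝ}

theorem Pt.iter (P : Pt F G d m E f g τ Zc ε') {v : V n} (hv : ‖qq n d v‖ < ε') :
    ∀ i, 1 ≤ i → i ≤ m → G^[i] (E v) = F^[i] (E (v + emb n d (τ v))) := by
  have hv' : ‖qq n d (v + emb n d (τ v))‖ < ε' := by
    rw [map_add, show qq n d (emb n d (τ v)) = 0 from qq_em _, add_zero]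
    exact hv
  intro i h1
  induction i, h1 using Nat.le_induction with
  | base =>
    intro _
    exact P.tube v
  | succ i hi ih =>
    intro him
    rw [Function.iterate_succ_apply', ih (by omega), P.away _ (P.maps _ hv' i (by omega) (by omega)),
      ← Function.iterate_succ_apply' F]

theorem core_small (x : Fin d → ℝ) {ε : ℝ} (hε : 0 < ε) : ‖qq n d (emb n d x)‖ < ε := by
  rw [show qq n d (emb n d x) = 0 from qq_em x, norm_zero]
  exact hε

theorem Pt.cycle (P : Pt F G d m E f g τ Zc ε') (H : TorusCycle n r F d m E f) :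
    TorusCycle n r G d m E g := by
  have hit : ∀ x i, 1 ≤ i → i ≤ m →
      G^[i] (E (emb n d x)) = F^[i] (E (emb n d (x + τ (emb n d x)))) := by
    intro x i h1 h2
    rw [P.iter (core_small x P.pos) i h1 h2]
    congr 2
    exact (map_add (em n d) _ _).symm
  refine { toTube := H.toTube, le := H.le, pos := H.pos, dis := ?_, dyn := ?_ }
  · intro i h0 hi x y
    rw [hit x i h0 hi.le]
    exact H.dis i h0 hi _ _
  · intro x y hxy
    rw [hit x m H.pos le_rfl]
    exact H.dyn _ _ (by rw [hxy, P.conj])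

theorem Pt.cyc_eq (P : Pt F G d m E f g τ Zc ε') (H : TorusCycle n r F d m E f) :
    cyc n G d m E = cyc n F d m E := by
  have hit : ∀ x i, 1 ≤ i → i ≤ m →
      G^[i] (E (emb n d x)) = F^[i] (E (emb n d (x + τ (emb n d x)))) := by
    intro x i h1 h2
    rw [P.iter (core_small x P.pos) i h1 h2]
    congr 2
    exact (map_add (em n d) _ _).symm
  apply Subset.antisymm
  · rintro _ ⟨i, hi, x, rfl⟩
    rcases Nat.eq_zero_or_pos i with rfl | h0
    · exact ⟨0, hi, x, rfl⟩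
    · exact ⟨i, hi, x + τ (emb n d x), hit x i h0 hi.le⟩
  · rintro _ ⟨i, hi, x, rfl⟩
    rcases Nat.eq_zero_or_pos i with rfl | h0
    · exact ⟨0, hi, x, rfl⟩
    · obtain ⟨x', hx'⟩ := tor_surj' (g.symm (f (toTorus x)))
      have h1 : f (toTorus (x' + τ (emb n d x'))) = f (toTorus x) := by
        rw [← P.conj, hx', g.apply_symm_apply]
      have h2 := (tor_eq_iff _ _).1 (f.injective h1)
      refine ⟨i, hi, x', ?_⟩
      rw [hit x' i h0 hi.le, H.core_int H.le h2]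

/-- the hypothesis of `hypAt_core` -/
theorem Pt.lin (hr : 1 ≤ r) (P : Pt F G d m E f g τ Zc ε') (H : TorusCycle n r F d m E f)
    {ε : ℝ} (hτ : ∀ v, ‖τ v‖ ≤ ε)
    (hlin : ∀ (x τ : ℤ → Fin d → ℝ) (v : ℤ → V n) (t : ℤ → Fin d → ℝ),
      (∀ k, ‖τ k‖ ≤ ε) →
      (∀ k, tangentMap (𝓡 n) (𝓡 n) (F^[m]) (tangentMap (𝓡 n) (𝓡 n) E
          ⟨emb n d (x k + τ k), v k⟩) =
        tangentMap (𝓡 n) (𝓡 n) E ⟨emb n d (x (k + 1)), v (k + 1) + emb n d (t k)⟩) →
      (∃ C : ℝ, ∀ k, ‖qq n d (v k)‖ ≤ C) → ∀ k, qq n d (v k) = 0)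
    (x : ℤ → Fin d → ℝ) (a : ℤ → V n)
    (h : ∀ j, tangentMap (𝓡 n) (𝓡 n) (G^[m]) (tangentMap (𝓡 n) (𝓡 n) E ⟨emb n d (x j), a j⟩) =
        tangentMap (𝓡 n) (𝓡 n) E ⟨emb n d (x (j + 1)), a (j + 1)⟩)
    (hb : ∃ C : ℝ, ∀ j, ‖a j‖ ≤ C) (j : ℤ) : qq n d (a j) = 0 := by
  set S : V n → V n := fun v => v + em n d (τ v) with hS
  have hSd : ∀ v, HasFDerivAt S (ContinuousLinearMap.id ℝ (V n) + (em n d).comp (fderiv ℝ τ v)) v :=
    fun v => (hasFDerivAt_id v).add
      ((em n d).hasFDerivAt.comp v ((P.tau.differentiable (by norm_num) v).hasFDerivAt))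
  have key : ∀ (y : Fin d → ℝ) (b : V n), tangentMap (𝓡 n) (𝓡 n) (G^[m])
      (tangentMap (𝓡 n) (𝓡 n) E ⟨emb n d y, b⟩) = tangentMap (𝓡 n) (𝓡 n) (F^[m])
      (tangentMap (𝓡 n) (𝓡 n) E ⟨emb n d (y + τ (emb n d y)),
        b + em n d (fderiv ℝ τ (emb n d y) b)⟩) := by
    intro y b
    have hGm : MDifferentiableAt (𝓡 n) (𝓡 n) (G^[m]) (E (emb n d y)) :=
      (iter1 hr G m _).mdifferentiableAt (by norm_num)
    have hFm : MDifferentiableAt (𝓡 n) (𝓡 n) (F^[m]) (E (S (emb n d y))) :=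
      (iter1 hr F m _).mdifferentiableAt (by norm_num)
    have hSm : MDifferentiableAt (𝓡 n) (𝓡 n) S (emb n d y) :=
      (hSd _).differentiableAt.mdifferentiableAt
    have h1 : tangentMap (𝓡 n) (𝓡 n) (G^[m] ∘ E) ⟨emb n d y, b⟩ =
        tangentMap (𝓡 n) (𝓡 n) (G^[m]) (tangentMap (𝓡 n) (𝓡 n) E ⟨emb n d y, b⟩) :=
      tangentMap_comp_at ⟨emb n d y, b⟩ hGm (mdiff_E hr H.toTube _)
    have h2 : tangentMap (𝓡 n) (𝓡 n) (E ∘ S) ⟨emb n d y, b⟩ =
        tangentMap (𝓡 n) (𝓡 n) E (tangentMap (𝓡 n) (𝓡 n) S ⟨emb n d y, b⟩) :=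
      tangentMap_comp_at ⟨emb n d y, b⟩ (mdiff_E hr H.toTube _) hSm
    have h3 : tangentMap (𝓡 n) (𝓡 n) (F^[m] ∘ (E ∘ S)) ⟨emb n d y, b⟩ =
        tangentMap (𝓡 n) (𝓡 n) (F^[m]) (tangentMap (𝓡 n) (𝓡 n) (E ∘ S) ⟨emb n d y, b⟩) :=
      tangentMap_comp_at ⟨emb n d y, b⟩ hFm ((mdiff_E hr H.toTube _).comp _ hSm)
    have h4 : tangentMap (𝓡 n) (𝓡 n) S ⟨emb n d y, b⟩ =
        (⟨emb n d (y + τ (emb n d y)), b + em n d (fderiv ℝ τ (emb n d y) b)⟩ :
          TangentBundle (𝓡 n) (V n)) := by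
      show (⟨S (emb n d y), mfderiv (𝓡 n) (𝓡 n) S (emb n d y) b⟩ :
        TangentBundle (𝓡 n) (V n)) = _
      rw [mfderiv_eq_fderiv, (hSd _).fderiv]
      have e : S (emb n d y) = emb n d (y + τ (emb n d y)) := (map_add (em n d) _ _).symm
      exact Bundle.TotalSpace.ext e HEq.rfl
    have h5 : (G^[m] ∘ E) =ᶠ[𝓝 (emb n d y)] (F^[m] ∘ (E ∘ S)) := by
      have hO : ∀ᶠ v in 𝓝 (emb n d y), ‖qq n d v‖ < ε' :=
        (isOpen_lt (qq n d).continuous.norm continuous_const).mem_nhds (core_small y P.pos)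
      filter_upwards [hO] with v hv
      exact P.iter hv m H.pos le_rfl
    have h6 : tangentMap (𝓡 n) (𝓡 n) (G^[m] ∘ E) ⟨emb n d y, b⟩ =
        tangentMap (𝓡 n) (𝓡 n) (F^[m] ∘ (E ∘ S)) ⟨emb n d y, b⟩ := by
      have h7 : mfderiv (𝓡 n) (𝓡 n) (G^[m] ∘ E) (emb n d y) =
          mfderiv (𝓡 n) (𝓡 n) (F^[m] ∘ (E ∘ S)) (emb n d y) := h5.mfderiv_eq
      show (⟨(G^[m] ∘ E) (emb n d y), mfderiv (𝓡 n) (𝓡 n) (G^[m] ∘ E) (emb n d y) b⟩ :
        TangentBundle (𝓡 n) N) = ⟨(F^[m] ∘ (E ∘ S)) (emb n d y),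
          mfderiv (𝓡 n) (𝓡 n) (F^[m] ∘ (E ∘ S)) (emb n d y) b⟩
      rw [h7]
      exact Bundle.TotalSpace.ext h5.self_of_nhds HEq.rfl
    exact h1.symm.trans (h6.trans (h3.trans (congrArg _ (h2.trans (congrArg _ h4)))))
  obtain ⟨C, hC⟩ := hb
  have h1 := hlin x (fun k => τ (emb n d (x k)))
    (fun k => a k + em n d (fderiv ℝ τ (emb n d (x k)) (a k)))
    (fun k => -fderiv ℝ τ (emb n d (x (k + 1))) (a (k + 1))) (fun k => hτ _) (fun k => by
      show tangentMap (𝓡 n) (𝓡 n) (F^[m]) (tangentMap (𝓡 n) (𝓡 n) E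
          ⟨emb n d (x k + τ (emb n d (x k))), a k + em n d (fderiv ℝ τ (emb n d (x k)) (a k))⟩) =
        tangentMap (𝓡 n) (𝓡 n) E ⟨emb n d (x (k + 1)),
          a (k + 1) + em n d (fderiv ℝ τ (emb n d (x (k + 1))) (a (k + 1))) +
          em n d (-fderiv ℝ τ (emb n d (x (k + 1))) (a (k + 1)))⟩
      rw [map_neg, add_neg_cancel_right, ← key, h k])
    ⟨‖qq n d‖ * C, fun k => by
      rw [map_add, qq_em, add_zero]
      exact ((qq n d).le_opNorm _).trans (mul_le_mul_of_nonneg_left (hC _) (norm_nonneg _))⟩ j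
  rw [map_add, qq_em, add_zero] at h1
  exact h1

end perturbed

theorem exists_min (m : ℕ) (p : ℕ → ℝ → Prop) (hmono : ∀ k a b, a ≤ b → p k b → p k a)
    (h : ∀ k, ∃ a : ℝ, 0 < a ∧ p k a) : ∃ a : ℝ, 0 < a ∧ ∀ k ≤ m, p k a := by
  induction m with
  | zero =>
    obtain ⟨a, ha, h1⟩ := h 0
    exact ⟨a, ha, fun k hk => by rwa [Nat.le_zero.1 hk]⟩
  | succ m ih =>
    obtain ⟨a, ha, h1⟩ := ih
    obtain ⟨b, hb, h2⟩ := h (m + 1)
    refine ⟨min a b, lt_min ha hb, fun k hk => ?_⟩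
    rcases Nat.lt_or_ge k (m + 1) with h3 | h3
    · exact hmono _ _ _ (min_le_left _ _) (h1 k (by omega))
    · have h4 : k = m + 1 := by omega
      rw [h4]
      exact hmono _ _ _ (min_le_right _ _) h2

theorem per_of_finite {X : Type u} [MetricSpace X] [CompactSpace X] {g : X ≃ₜ X}
    (h : (ChainRec g).Finite) : ChainRec g ⊆ Per g := by
  intro x hx
  have hit : ∀ k : ℕ, g^[k] x ∈ ChainRec g := by
    intro k
    induction k with
    | zero => exact hx
    | succ k ih =>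
      rw [Function.iterate_succ_apply']
      exact chainRec_fwd ih
  obtain ⟨a, b, hab, heq⟩ : ∃ a b : ℕ, a < b ∧ g^[a] x = g^[b] x := by
    by_contra hcon
    have hinj : Function.Injective fun k : ℕ => g^[k] x := by
      intro a b hab
      rcases lt_trichotomy a b with h1 | h1 | h1
      · exact absurd ⟨a, b, h1, hab⟩ hcon
      · exact h1
      · exact absurd ⟨b, a, h1, hab.symm⟩ hcon
    exact Set.infinite_of_injective_forall_mem hinj hit h
  refine ⟨b - a, by omega, ?_⟩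
  apply (g.injective.iterate a)
  rw [← Function.iterate_add_apply, Nat.add_sub_cancel' hab.le]
  exact heq.symm

section main

variable {n : ℕ} {N : Type u} [MetricSpace N] [CompactSpace N]
  [ChartedSpace (V n) N] [IsManifold (𝓡 n) ∞ N] {r : ℕ∞}

/-- **One step.** -/
theorem step0 (hPERT : S_PERT.{u}) (hr : 1 ≤ r) {F : DiffM n N r} {d m : ℕ} {E : V n → N}
    {f : Torus d ≃ₜ Torus d} (H : TorusCycle n r F d m E f) (Q : (Torus d ≃ₜ Torus d) → Prop)
    (hf : Approx r f Q)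
    (hN : NormalHyp n (F^[m]) d E) {Z : Set N} (hZ : IsClosed Z) (hFZ : F '' Z = Z)
    (hdis : Disjoint Z (cyc n F d m E)) (hCR : ChainRec F.toHomeomorph ⊆ Z ∪ cyc n F d m E)
    {U : Set (DiffM n N r)} (hU : IsOpen[strongTop n N r] U) (hFU : F ∈ U) :
    ∃ (G : DiffM n N r) (g : Torus d ≃ₜ Torus d) (O : Set N), G ∈ U ∧ Q g ∧
      TorusCycle n r G d m E g ∧ cyc n G d m E = cyc n F d m E ∧
      (IsHyperbolic toTorus g (ChainRec g) → ∀ x ∈ cyc n G d m E, HypAt n G x) ∧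
      ChainRec G.toHomeomorph ⊆ (ChainRec F.toHomeomorph ∩ Z) ∪ cyc n F d m E ∧
      IsOpen O ∧ Z ⊆ O ∧ ∀ y ∈ O, G y = F y := by
  -- the return map
  have hT : ContMDiff (𝓡 n) (𝓡 n) 1 (F^[m]) := iter1 hr F m
  have hcore : ∀ x : Fin d → ℝ, ∃ y : Fin d → ℝ, F^[m] (E (emb n d x)) = E (emb n d y) := by
    intro x
    obtain ⟨y, hy⟩ := tor_surj' (f (toTorus x))
    exact ⟨y, H.dyn x y hy⟩
  obtain ⟨ε₁, hε₁, hiso⟩ := iso hr H.le H.toTube hT hcore hN
  obtain ⟨ε₂, hε₂, hlin⟩ := lin hr H.le H.toTube hT hcore hN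
  -- the sets
  set A₀ : Set N := core n d E with hA₀
  set Z' : Set N := away F n d m E Z with hZ'
  set K : Set N := cyc n F d m E with hK
  have hcA : IsCompact A₀ := H.core_compact H.le
  have hZ'c : IsClosed Z' := hZ.union (isClosed_iUnion_of_finite fun i =>
    isClosed_iUnion_of_finite fun _ => (hcA.image (F.continuous.iterate i)).isClosed)
  have hA₀cyc : A₀ ⊆ K := by
    rintro _ ⟨x, rfl⟩
    exact ⟨0, H.pos, x, rfl⟩
  have hd' : Disjoint A₀ Z' := by
    rw [Set.disjoint_left]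
    rintro _ ⟨x, rfl⟩ (h | h)
    · exact Set.disjoint_left.1 hdis h ⟨0, H.pos, x, rfl⟩
    · obtain ⟨i, hi, _, ⟨y, rfl⟩, h⟩ := mem_iUnion₂.1 h
      exact H.dis i hi i.2 y x h
  have hcyc' : K ⊆ A₀ ∪ Z' := by
    rintro _ ⟨i, hi, x, rfl⟩
    rcases Nat.eq_zero_or_pos i with rfl | h0
    · exact Or.inl ⟨x, rfl⟩
    · exact Or.inr (Or.inr (mem_iUnion₂.2 ⟨⟨i, hi⟩, h0, _, ⟨x, rfl⟩, rfl⟩))
  have hTA : ∀ a ∈ A₀, F^[m] a ∈ A₀ := by
    rintro _ ⟨x, rfl⟩
    obtain ⟨y, hy⟩ := hcore x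
    exact ⟨y, hy.symm⟩
  have hFZ1 : ∀ z ∈ Z, F z ∈ Z := fun z hz => by
    rw [← hFZ]
    exact mem_image_of_mem _ hz
  have hFZi : ∀ k : ℕ, ∀ z ∈ Z, F^[k] z ∈ Z := by
    intro k
    induction k with
    | zero => exact fun z hz => hz
    | succ k ih =>
      intro z hz
      rw [Function.iterate_succ_apply']
      exact hFZ1 _ (ih z hz)
  have hTZ' : ∀ z ∈ Z', F^[m] z ∈ Z' := by
    rintro z (h | h)
    · exact Or.inl (hFZi m z h)
    · obtain ⟨i, hi, y, hy, rfl⟩ := mem_iUnion₂.1 h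
      refine Or.inr (mem_iUnion₂.2 ⟨i, hi, F^[m] y, hTA y hy, ?_⟩)
      rw [← Function.iterate_add_apply, ← Function.iterate_add_apply, add_comm]
  have hKimg : F '' K = K := cyc_img H
  have hFK : ∀ y ∈ K, F y ∈ K := fun y hy => by
    rw [← hKimg]
    exact mem_image_of_mem _ hy
  have hKc : IsClosed K := cyc_closed F.continuous H
  -- the set where nothing is changed
  obtain ⟨ρ, hρ, hρd⟩ := hd'.exists_cthickenings hcA hZ'c
  set Zc : Set N := cthickening ρ Z' with hZc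
  have hcoreZc : ∀ x, E (emb n d x) ∉ Zc := fun x hx =>
    Set.disjoint_left.1 hρd (self_subset_cthickening A₀ ⟨x, rfl⟩) hx
  obtain ⟨ε', hε', hmaps⟩ := tube_nhd H.le H.toTube
    (O := ⋂ i : Fin m, ⋂ _ : 0 < (i : ℕ), F^[(i : ℕ)] ⁻¹' thickening ρ Z')
    (isOpen_iInter_of_finite fun i => isOpen_iInter_of_finite fun _ =>
      isOpen_thickening.preimage (F.continuous.iterate i)) (by
      intro y hy
      refine mem_iInter₂.2 fun i hi => ?_
      refine self_subset_thickening hρ Z' ?_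
      exact Or.inr (mem_iUnion₂.2 ⟨i, hi, y, hy, rfl⟩))
  have hmaps' : ∀ v, ‖qq n d v‖ < ε' → ∀ i, 0 < i → i < m → F^[i] (E v) ∈ Zc := by
    intro v hv i h0 hi
    have h1 := mem_iInter₂.1 (hmaps v hv) ⟨i, hi⟩ h0
    exact thickening_subset_cthickening ρ Z' h1
  -- the constants
  obtain ⟨δt, hδt, htube⟩ := nhd_tube H.le H.toTube (lt_min hε₁ hε')
  obtain ⟨δ₁, hδ₁, hδ₁t, -, η₁, hη₁, hts₁⟩ := two_sets (F.continuous.iterate m) hcA.isClosed hZ'c
    hd' hTA hTZ' hδt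
  obtain ⟨δ₂, hδ₂, hun⟩ := exists_min m
    (fun k a => ∀ x y : N, dist x y < a → dist (F^[k] x) (F^[k] y) < δ₁ / 2)
    (fun k a b hab h x y hxy => h x y (hxy.trans_le hab))
    (fun k => by
      have hu : UniformContinuous (F^[k]) :=
        CompactSpace.uniformContinuous_of_continuous (F.continuous.iterate k)
      obtain ⟨a, ha, h1⟩ := Metric.uniformContinuous_iff.1 hu (δ₁ / 2) (half_pos hδ₁)
      exact ⟨a, ha, fun x y hxy => h1 hxy⟩)
  obtain ⟨δ₃, hδ₃, hδ₃le, hdis₃, η₃, hη₃, hts₃⟩ := two_sets F.continuous hZ hKc hdis hFZ1 hFK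
    (lt_min hδ₂ hρ)
  obtain ⟨η₄, hη₄, husc⟩ := usc F.toHomeomorph
    (O := (thickening δ₃ Z ∪ thickening δ₃ K) ∩ (thickening δ₁ A₀ ∪ thickening δ₁ Z'))
    ((isOpen_thickening.union isOpen_thickening).inter
      (isOpen_thickening.union isOpen_thickening)) (by
      intro y hy
      rcases hCR hy with h | h
      · exact ⟨Or.inl (self_subset_thickening hδ₃ Z h),
          Or.inr (self_subset_thickening hδ₁ Z' (Or.inl h))⟩
      · refine ⟨Or.inr (self_subset_thickening hδ₃ K h), ?_⟩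
        rcases hcyc' h with h1 | h1
        · exact Or.inl (self_subset_thickening hδ₁ A₀ h1)
        · exact Or.inr (self_subset_thickening hδ₁ Z' h1))
  obtain ⟨η₅, hη₅, hit⟩ := exists_min m
    (fun k a => ∀ G : N → N, (∀ x, dist (G x) (F x) < a) →
      ∀ x, dist (G^[k] x) (F^[k] x) < min (δ₁ / 2) η₁)
    (fun k a b hab h G hG => h G fun x => (hG x).trans_le hab)
    (fun k => unif_iter F.continuous k (lt_min (half_pos hδ₁) hη₁))
  obtain ⟨U₁, hU₁, hFU₁, hclose⟩ := unif_nhd F (lt_min hη₃ (lt_min hη₄ hη₅))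
  -- the perturbation
  obtain ⟨τ, g, Ψ, hτ1, hτε, hg, hconj, hΨE, hΨZ, hGU⟩ := hPERT n d N r hr H.le E H.toTube f
    Q hf F (U ∩ U₁) (@IsOpen.inter _ (strongTop n N r) _ _ hU hU₁)
    ⟨hFU, hFU₁⟩ Zc isClosed_cthickening hcoreZc (min ε₁ ε₂) (lt_min hε₁ hε₂)
  set G : DiffM n N r := Ψ.trans F with hGdef
  have hPt : Pt F G d m E f g τ Zc ε' :=
    { tau := hτ1
      away := fun y hy => by
        show F (Ψ y) = F y
        rw [hΨZ y hy]
      tube := fun v => by
        show F (Ψ (E v)) = _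
        rw [hΨE]
      conj := hconj
      pos := hε'
      maps := hmaps' }
  have HG : TorusCycle n r G d m E g := hPt.cycle H
  have hcycG : cyc n G d m E = K := hPt.cyc_eq H
  have hGF : ∀ x, dist (G x) (F x) < min η₃ (min η₄ η₅) := hclose G hGU.2
  -- the chain recurrent set
  set R : Set N := ChainRec G.toHomeomorph with hR
  have hRsub := husc G.toHomeomorph fun x =>
    (hGF x).trans_le ((min_le_right _ _).trans (min_le_left _ _))
  have hR1 : R ⊆ thickening δ₃ Z ∪ thickening δ₃ K := fun y hy => (hRsub hy).1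
  have hR2 : R ⊆ thickening δ₁ A₀ ∪ thickening δ₁ Z' := fun y hy => (hRsub hy).2
  have hRf : ∀ x ∈ R, G x ∈ R := fun x hx => chainRec_fwd (f := G.toHomeomorph) hx
  have hRb : ∀ x ∈ R, G.symm x ∈ R := fun x hx => chainRec_bwd (f := G.toHomeomorph) hx
  have hRi : ∀ k : ℕ, ∀ x ∈ R, G^[k] x ∈ R := by
    intro k
    induction k with
    | zero => exact fun x hx => hx
    | succ k ih =>
      intro x hx
      rw [Function.iterate_succ_apply']
      exact hRf _ (ih x hx)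
  have hitG : ∀ k ≤ m, ∀ x, dist (G^[k] x) (F^[k] x) < min (δ₁ / 2) η₁ := fun k hk =>
    hit k hk G fun x => (hGF x).trans_le ((min_le_right _ _).trans (min_le_right _ _))
  have htsm := hts₁ (G^[m]) (fun x => (hitG m le_rfl x).trans_le (min_le_right _ _)) R hR2
    (hRi m)
  have hcoreR : ∀ y ∈ R, y ∈ thickening δ₁ A₀ → y ∈ A₀ := by
    intro y hy hyA
    let e₁ : Equiv.Perm N := G.toEquiv
    have he₁ : ∀ k : ℕ, ∀ x, (e₁ ^ k) x = G^[k] x := by
      intro k x
      rw [← Equiv.Perm.iterate_eq_pow]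
      rfl
    have he₂ : ∀ k : ℕ, ∀ x, (e₁ ^ k).symm x = G.symm^[k] x := by
      intro k x
      have h1 : (e₁ ^ k).symm = (e₁.symm) ^ k := by
        show (e₁ ^ k)⁻¹ = (e₁⁻¹) ^ k
        rw [inv_pow]
      rw [h1, ← Equiv.Perm.iterate_eq_pow]
      rfl
    have hRbi : ∀ k : ℕ, ∀ x ∈ R, G.symm^[k] x ∈ R := by
      intro k
      induction k with
      | zero => exact fun x hx => hx
      | succ k ih =>
        intro x hx
        rw [Function.iterate_succ_apply']
        exact hRb _ (ih x hx)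
    obtain ⟨z, hz0, hz1, hzR⟩ := orbit (e₁ ^ m) (C := R)
      (fun x hx => by rw [he₁]; exact hRi m x hx)
      (fun x hx => by rw [he₂]; exact hRbi m x hx) hy
    have hz1' : ∀ j, z (j + 1) = G^[m] (z j) := fun j => by rw [hz1, he₁]
    have hzS := orbit_stay htsm hz1' hzR (by rw [hz0]; exact hyA)
    choose v hv hvq using fun j => htube (z j) (thickening_mono hδ₁t _ (hzS j))
    have h1 : ∀ k, F^[m] (E (v k + emb n d (τ (v k)))) = E (v (k + 1)) := by
      intro k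
      rw [← hPt.iter ((hvq k).trans_le (min_le_right _ _)) m H.pos le_rfl, hv, hv, hz1']
    have h2 := hiso v (fun k => τ (v k)) (fun k => (hτε _).trans (min_le_left _ _)) h1
      (fun k => ((hvq k).trans_le (min_le_left _ _)).le) 0
    obtain ⟨x, hx⟩ := (core_iff H.le _).1 h2
    refine ⟨x, ?_⟩
    show E (emb n d x) = y
    rw [← hx, hv, hz0]
  have hGK : G '' K = K := by
    have h1 := cyc_img HG
    rwa [hcycG] at h1
  have hback : ∀ (k : ℕ) (y : N), G^[k] y ∈ K → y ∈ K := by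
    intro k
    induction k with
    | zero => exact fun y hy => hy
    | succ k ih =>
      intro y hy
      rw [Function.iterate_succ_apply'] at hy
      rw [← hGK] at hy
      obtain ⟨w, hw, hwy⟩ := hy
      exact ih y (by rw [← G.injective hwy]; exact hw)
  have hR3 : ∀ y ∈ R, y ∈ thickening δ₃ K → y ∈ K := by
    intro y hy hyc
    rw [mem_thickening_iff] at hyc
    obtain ⟨_, ⟨i, hi, x, rfl⟩, hdy⟩ := hyc
    have h0 := hun (m - i) (Nat.sub_le _ _) y _
      (hdy.trans_le (hδ₃le.trans (min_le_left _ _)))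
    have h0' := (hitG (m - i) (Nat.sub_le _ _) y).trans_le (min_le_left _ _)
    have h1 : dist (G^[m - i] y) (F^[m - i] (F^[i] (E (emb n d x)))) < δ₁ := by
      calc dist (G^[m - i] y) (F^[m - i] (F^[i] (E (emb n d x)))) ≤
          dist (G^[m - i] y) (F^[m - i] y) +
          dist (F^[m - i] y) (F^[m - i] (F^[i] (E (emb n d x)))) := dist_triangle _ _ _
        _ < δ₁ := by linarith
    rw [← Function.iterate_add_apply, Nat.sub_add_cancel hi.le] at h1
    have h2 : G^[m - i] y ∈ thickening δ₁ A₀ :=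
      mem_thickening_iff.2 ⟨_, hTA _ ⟨x, rfl⟩, h1⟩
    exact hback _ _ (hA₀cyc (hcoreR _ (hRi _ y hy) h2))
  have htsZ := hts₃ G (fun x => (hGF x).trans_le (min_le_left _ _)) R hR1 hRf
  have hGZ : ∀ y ∈ thickening δ₃ Z, G y = F y := by
    intro y hy
    refine hPt.away y ?_
    have h1 : y ∈ thickening ρ Z' := by
      have h2 := thickening_mono (hδ₃le.trans (min_le_right _ _)) Z hy
      exact thickening_subset_of_subset ρ (show Z ⊆ Z' from subset_union_left) h2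
    exact thickening_subset_cthickening ρ Z' h1
  have hR4 : ∀ y ∈ R, y ∈ thickening δ₃ Z → y ∈ ChainRec F.toHomeomorph ∩ Z := by
    intro y hy hyZ
    have h1 : y ∈ ChainRec F.toHomeomorph := by
      intro ε hε
      obtain ⟨k, c, hk, h0, hkk, hC, hch⟩ :=
        reach_of_chainRec (G := G.toHomeomorph) hy (min ε δ₃) (lt_min hε hδ₃)
      have hall : ∀ i ≤ k, c i ∈ thickening δ₃ Z := by
        intro i
        induction i with
        | zero =>
          intro _
          rw [h0]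
          exact hyZ
        | succ i ih =>
          intro hi
          have h2 := ih (by omega)
          have h3 := (htsZ _ (hC i (by omega))).1 h2
          have h4 := (hch i (by omega)).trans_le (min_le_right _ _)
          rcases hR1 (hC (i + 1) hi) with h5 | h5
          · exact h5
          · exfalso
            rw [mem_thickening_iff] at h3
            obtain ⟨w, hw, hw2⟩ := h3
            have h6 : c (i + 1) ∈ thickening (2 * δ₃) Z := by
              rw [mem_thickening_iff]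
              refine ⟨w, hw, ?_⟩
              have h7 : dist (c (i + 1)) (G (c i)) < δ₃ := by
                rw [dist_comm]
                exact h4
              calc dist (c (i + 1)) w ≤ dist (c (i + 1)) (G (c i)) + dist (G (c i)) w :=
                    dist_triangle _ _ _
                _ < 2 * δ₃ := by linarith
            exact Set.disjoint_left.1 hdis₃ h6 (thickening_mono (by linarith) K h5)
      refine ⟨k, c, hk, h0, hkk, fun i hi => ?_⟩
      have h8 : dist (G (c i)) (c (i + 1)) < min ε δ₃ := hch i hi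
      show dist (F (c i)) (c (i + 1)) < ε
      rw [← hGZ _ (hall i hi.le)]
      exact h8.trans_le (min_le_left _ _)
    refine ⟨h1, ?_⟩
    rcases hCR h1 with h | h
    · exact h
    · exfalso
      exact Set.disjoint_left.1 hdis₃ (thickening_mono (by linarith) Z hyZ)
        (self_subset_thickening (by linarith) K h)
  refine ⟨G, g, thickening δ₃ Z, hGU.1, hg, HG, hcycG, fun hgh x hx => ?_, fun y hy => ?_,
    isOpen_thickening, self_subset_thickening hδ₃ Z, hGZ⟩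
  · obtain ⟨i, -, x, rfl⟩ := hx
    refine hypAt_iter hr G (hypAt_core hr H.le H.toTube G hgh HG.dyn ?_ x) i
    intro x' a h1 h2
    exact hPt.lin hr H (fun v => (hτε v).trans (min_le_right _ _)) hlin x' a h1 h2
  · rcases hR1 hy with h | h
    · exact Or.inl (hR4 y hy h)
    · exact Or.inr (hR3 y hy h)

/-- chain recurrent points on an isolated cycle -/
theorem chain_cyc {F : DiffM n N r} {d m : ℕ} {E : V n → N} {f : Torus d ≃ₜ Torus d}
    (H : TorusCycle n r F d m E f) {Z : Set N} (hZ : IsClosed Z)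
    (hZd : Disjoint Z (cyc n F d m E)) (hC : ChainRec F.toHomeomorph ⊆ Z ∪ cyc n F d m E)
    {θ : Torus d → N} (hθ : Continuous θ) (hθi : Function.Injective θ)
    (hθE : ∀ x, θ (toTorus x) = E (emb n d x)) {x : N} (hx : x ∈ ChainRec F.toHomeomorph)
    (hxK : x ∈ cyc n F d m E) : ∃ i < m, ∃ t ∈ ChainRec f, x = F^[i] (θ t) := by
  have hcycθ : cyc n F d m E = ⋃ i : Fin m, (fun t => F^[(i : ℕ)] (θ t)) '' univ := cyc_eq hθE
  have hcases : ∀ y ∈ cyc n F d m E, ∃ i < m, ∃ t, y = F^[i] (θ t) := by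
    intro y hy
    rw [hcycθ] at hy
    obtain ⟨i, t, -, rfl⟩ := mem_iUnion.1 hy
    exact ⟨i, i.2, t, rfl⟩
  have hmem : ∀ i < m, ∀ t, F^[i] (θ t) ∈ cyc n F d m E := by
    intro i hi t
    rw [hcycθ]
    exact mem_iUnion.2 ⟨⟨i, hi⟩, t, mem_univ _, rfl⟩
  obtain ⟨i, hi, t, rfl⟩ := hcases x hxK
  obtain ⟨ρ, hρ, hρ'⟩ := piece_iso (G := F.toHomeomorph) (p := 1) (d := fun _ => d)
    (m := fun _ => m) (fun _ => θ) (fun _ => hθ)
    (fun j₁ j₂ hj => absurd (Subsingleton.elim j₁ j₂) hj)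
    (fun _ i₁ h0 hi₁ t t' => theta_dis H hθE i₁ h0 hi₁ t t') hZ
    (fun _ i₁ hi₁ t ht => Set.disjoint_left.1 hZd ht (hmem i₁ hi₁ t))
    (C := ChainRec F.toHomeomorph) (fun y hy => by
      rcases hC hy with h | h
      · exact Or.inl h
      · exact Or.inr ⟨0, hcases y h⟩) 0 hi
  exact ⟨i, hi, t, Pool.Agent.Q192.FT.reach_cyc F.toHomeomorph hθ hθi f (theta_dyn H hθE) hρ hρ'
    (reach_of_chainRec hx), rfl⟩

/-- **One step, hyperbolic case.** -/
theorem step (hPERT : S_PERT.{u}) (hr : 1 ≤ r) {F : DiffM n N r} {d m : ℕ} {E : V n → N}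
    {f : Torus d ≃ₜ Torus d} (H : TorusCycle n r F d m E f) (hf : TameH r f)
    (hN : NormalHyp n (F^[m]) d E) {Z : Set N} (hZ : IsClosed Z) (hFZ : F '' Z = Z)
    (hdis : Disjoint Z (cyc n F d m E)) (hCR : ChainRec F.toHomeomorph ⊆ Z ∪ cyc n F d m E)
    {U : Set (DiffM n N r)} (hU : IsOpen[strongTop n N r] U) (hFU : F ∈ U) :
    ∃ (G : DiffM n N r) (P O : Set N), G ∈ U ∧ P.Finite ∧ P ⊆ cyc n F d m E ∧ G '' P = P ∧
      (∀ p ∈ P, HypAt n G p) ∧ ChainRec G.toHomeomorph ⊆ Z ∪ P ∧ IsOpen O ∧ Z ⊆ O ∧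
      ∀ y ∈ O, G y = F y := by
  obtain ⟨G, g, O, hGU, hg, HG, hcycG, hhyp, hRZ, hO⟩ := step0 hPERT hr H HypFin
    (tameH_approx hr hf) hN hZ hFZ hdis hCR hU hFU
  set K : Set N := cyc n F d m E with hK
  set R : Set N := ChainRec G.toHomeomorph with hR
  have hRZK : R ⊆ Z ∪ K := fun y hy => (hRZ hy).imp (fun h => h.2) id
  have hGK : G '' K = K := by
    have h1 := cyc_img HG
    rwa [hcycG] at h1
  obtain ⟨θ, hθ, hθi, hθE⟩ := exists_theta HG.le HG.toTube
  have hch : ∀ x ∈ R, x ∈ K → ∃ i < m, ∃ t ∈ ChainRec g, x = G^[i] (θ t) := fun x hx hxK =>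
    chain_cyc HG hZ (by rw [hcycG]; exact hdis) (by rw [hcycG]; exact hRZK) hθ hθi hθE hx
      (by rw [hcycG]; exact hxK)
  refine ⟨G, R ∩ K, O, hGU, ?_, inter_subset_right, ?_, ?_, ?_, hO⟩
  · have hsub : R ∩ K ⊆ ⋃ i : Fin m, (fun t => G^[(i : ℕ)] (θ t)) '' ChainRec g := by
      rintro y ⟨hy, hyK⟩
      obtain ⟨i, hi, t, ht, rfl⟩ := hch y hy hyK
      exact mem_iUnion.2 ⟨⟨i, hi⟩, t, ht, rfl⟩
    exact (Set.finite_iUnion fun i => hg.1.image _).subset hsub
  · have hRimg : G '' R = R := by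
      apply Subset.antisymm
      · rintro _ ⟨x, hx, rfl⟩
        exact chainRec_fwd (f := G.toHomeomorph) hx
      · intro x hx
        exact ⟨G.symm x, chainRec_bwd (f := G.toHomeomorph) hx, G.apply_symm_apply x⟩
    rw [image_inter (show Function.Injective (G : N → N) from G.injective), hRimg, hGK]
  · rintro p ⟨-, hpK⟩
    exact hhyp hg.2 p (by rw [hcycG]; exact hpK)
  · intro y hy
    rcases hRZK hy with h | h
    · exact Or.inl h
    · exact Or.inr ⟨hy, h⟩

end main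

end Q263.DH
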