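import Mathlib
import Pool.Agent.Q263.DH.Step

/-! Induction over the cycles of tori. -/

set_option autoImplicit false
set_option linter.unusedSectionVars false

open scoped Manifold ContDiff Topology
open Set Filter Metric Pool.Agent.H718R2.G Pool.Agent.H728R2.OS
open Pool.Agent.Q192.FT (emb cyc TameH)
open Pool.Agent.Y504.CO (HypAt)
open Q263.IC

universe u

namespace Q263.DH

section congr

variable {n : ℕ} {N : Type u} [TopologicalSpace N] [ChartedSpace (V n) N]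

theorem iter_ev {f g : N → N} (hf : Continuous f) {Λ O : Set N} (hO : IsOpen O) (hΛ : Λ ⊆ O)
    (hinv : ∀ x ∈ Λ, f x ∈ Λ) (hfg : ∀ y ∈ O, g y = f y) (k : ℕ) {x : N} (hx : x ∈ Λ) :
    g^[k] =ᶠ[𝓝 x] f^[k] := by
  have hit : ∀ k : ℕ, f^[k] x ∈ Λ := by
    intro k
    induction k with
    | zero => exact hx
    | succ k ih =>
      rw [Function.iterate_succ_apply']
      exact hinv _ ih
  induction k with
  | zero => exact EventuallyEq.rfl
  | succ k ih =>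
    have h1 : ∀ᶠ w in 𝓝 x, f^[k] w ∈ O :=
      (hf.iterate k).continuousAt.eventually (hO.mem_nhds (hΛ (hit k)))
    filter_upwards [ih, h1] with w h2 h3
    rw [Function.iterate_succ_apply', Function.iterate_succ_apply', h2, hfg _ h3]

theorem tangent_ev {f g : N → N} {x : N} (h : g =ᶠ[𝓝 x] f) (v : V n) :
    tangentMap (𝓡 n) (𝓡 n) g (tm x v) = tangentMap (𝓡 n) (𝓡 n) f (tm x v) := by
  have h1 : mfderiv (𝓡 n) (𝓡 n) g x = mfderiv (𝓡 n) (𝓡 n) f x := h.mfderiv_eq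
  show (⟨g x, mfderiv (𝓡 n) (𝓡 n) g x v⟩ : TangentBundle (𝓡 n) N) =
    ⟨f x, mfderiv (𝓡 n) (𝓡 n) f x v⟩
  rw [h1]
  exact Bundle.TotalSpace.ext h.self_of_nhds HEq.rfl

end congr

section hyp

variable {n : ℕ} {N : Type u} [TopologicalSpace N] [ChartedSpace (V n) N]
  [IsManifold (𝓡 n) 1 N]

/-- the field of subspaces, as a map to the subspaces of `V n` -/
def ZZ (Z : ∀ x : N, Submodule ℝ (TangentSpace 𝓘(ℝ, V n) x)) (x : N) : Submodule ℝ (V n) := Z x

theorem invOn_iff (G : N → N) (Λ : Set N) (Z : ∀ x : N, Submodule ℝ (TangentSpace 𝓘(ℝ, V n) x)) :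
    Q263.HS.InvOn G Λ Z ↔ ∀ x ∈ Λ, (ZZ Z x).map (DD G x).toLinearMap = ZZ Z (G x) := Iff.rfl

theorem DD_ev {f g : N → N} {x : N} (h : g =ᶠ[𝓝 x] f) : (DD g x : V n →L[ℝ] V n) = DD f x := by
  have h1 : mfderiv (𝓡 n) (𝓡 n) g x = mfderiv (𝓡 n) (𝓡 n) f x := h.mfderiv_eq
  exact h1

theorem invOn_congr {f g : N → N} {Λ O : Set N} (hO : IsOpen O) (hΛ : Λ ⊆ O)
    (hfg : ∀ y ∈ O, g y = f y) {Z : ∀ x : N, Submodule ℝ (TangentSpace 𝓘(ℝ, V n) x)}
    (h : Q263.HS.InvOn f Λ Z) : Q263.HS.InvOn g Λ Z := by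
  rw [invOn_iff] at h ⊢
  intro x hx
  have h1 : g =ᶠ[𝓝 x] f := by
    filter_upwards [hO.mem_nhds (hΛ hx)] with w hw
    exact hfg w hw
  rw [DD_ev h1, hfg x (hΛ hx)]
  exact h x hx

theorem rateOn_congr {f g : N → N} (hf : Continuous f) {Λ O : Set N} (hO : IsOpen O) (hΛ : Λ ⊆ O)
    (hinv : ∀ x ∈ Λ, f x ∈ Λ) (hfg : ∀ y ∈ O, g y = f y)
    {Z : ∀ x : N, Submodule ℝ (TangentSpace 𝓘(ℝ, V n) x)} {Nm : TangentBundle 𝓘(ℝ, V n) N → ℝ}
    {C a : ℝ} (h : Q263.HS.RateOn f Λ Nm Z C a) : Q263.HS.RateOn g Λ Nm Z C a := by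
  intro k x hx v hv
  have h1 := tangent_ev (iter_ev hf hO hΛ hinv hfg k hx) v
  have h2 := h k x hx v hv
  have h3 : tangentMap 𝓘(ℝ, V n) 𝓘(ℝ, V n) (g^[k]) (⟨x, v⟩ : TangentBundle 𝓘(ℝ, V n) N) =
    tangentMap 𝓘(ℝ, V n) 𝓘(ℝ, V n) (f^[k]) ⟨x, v⟩ := h1
  rw [h3]
  exact h2

theorem isHyp_congr {f g : N ≃ₜ N} {Λ O : Set N} (hO : IsOpen O) (hΛ : Λ ⊆ O)
    (hfg : ∀ y ∈ O, g y = f y) (h : Q263.HS.IsHyp (V n) f Λ) : Q263.HS.IsHyp (V n) g Λ := by
  obtain ⟨Nm, Es, Eu, C, a, h⟩ := h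
  have hinv : ∀ x ∈ Λ, f x ∈ Λ := fun x hx => by
    rw [← h.inv]
    exact mem_image_of_mem _ hx
  have hinv' : ∀ x ∈ Λ, f.symm x ∈ Λ := fun x hx => by
    rw [← h.inv] at hx
    obtain ⟨y, hy, rfl⟩ := hx
    rwa [f.symm_apply_apply]
  have hO' : IsOpen (f.symm ⁻¹' O) := hO.preimage f.symm.continuous
  have hΛ' : Λ ⊆ f.symm ⁻¹' O := fun x hx => hΛ (hinv' x hx)
  have hfg' : ∀ y ∈ f.symm ⁻¹' O, g.symm y = f.symm y := by
    intro y hy
    rw [g.symm_apply_eq, hfg _ hy, f.apply_symm_apply]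
  refine ⟨Nm, Es, Eu, C, a, {
    norm := h.norm
    closed := h.closed
    inv := ?_
    a_pos := h.a_pos
    a_lt := h.a_lt
    map_s := invOn_congr hO hΛ hfg h.map_s
    map_u := invOn_congr hO hΛ hfg h.map_u
    rate_s := rateOn_congr f.continuous hO hΛ hinv hfg h.rate_s
    rate_u := rateOn_congr f.symm.continuous hO' hΛ' hinv' hfg' h.rate_u
    compl := h.compl
    cont_s := h.cont_s
    cont_u := h.cont_u }⟩
  have h1 : g '' Λ = f '' Λ := image_congr fun x hx => hfg x (hΛ hx)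
  rw [h1, h.inv]

end hyp

section cycles

variable {n d : ℕ} {N : Type u} [TopologicalSpace N] [T2Space N] [CompactSpace N]
  [ChartedSpace (V n) N] [IsManifold (𝓡 n) ∞ N] {r : ℕ∞} {E : V n → N} {m : ℕ}
  {F G : N → N} {f : Torus d ≃ₜ Torus d} {O : Set N}

theorem cycle_iter (H : TorusCycle n r F d m E f) (hO : cyc n F d m E ⊆ O)
    (hGF : ∀ y ∈ O, G y = F y) : ∀ (i : ℕ), ∀ y ∈ cyc n F d m E, G^[i] y = F^[i] y := by
  have hF : ∀ y ∈ cyc n F d m E, F y ∈ cyc n F d m E := fun y hy => by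
    have h1 := cyc_img H
    rw [← h1]
    exact mem_image_of_mem _ hy
  intro i
  induction i with
  | zero => exact fun y _ => rfl
  | succ i ih =>
    intro y hy
    rw [Function.iterate_succ_apply, Function.iterate_succ_apply, hGF y (hO hy)]
    exact ih _ (hF y hy)

theorem core_cyc (H : TorusCycle n r F d m E f) (x : Fin d → ℝ) :
    E (emb n d x) ∈ cyc n F d m E := ⟨0, H.pos, x, rfl⟩

theorem cycle_congr (H : TorusCycle n r F d m E f) (hO : cyc n F d m E ⊆ O)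
    (hGF : ∀ y ∈ O, G y = F y) : TorusCycle n r G d m E f := by
  refine { toTube := H.toTube, le := H.le, pos := H.pos, dis := ?_, dyn := ?_ }
  · intro i h0 hi x y
    rw [cycle_iter H hO hGF i _ (core_cyc H x)]
    exact H.dis i h0 hi x y
  · intro x y hxy
    rw [cycle_iter H hO hGF m _ (core_cyc H x)]
    exact H.dyn x y hxy

theorem cyc_congr (H : TorusCycle n r F d m E f) (hO : cyc n F d m E ⊆ O)
    (hGF : ∀ y ∈ O, G y = F y) : cyc n G d m E = cyc n F d m E := by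
  ext y
  constructor
  · rintro ⟨i, hi, x, rfl⟩
    exact ⟨i, hi, x, cycle_iter H hO hGF i _ (core_cyc H x)⟩
  · rintro ⟨i, hi, x, rfl⟩
    exact ⟨i, hi, x, (cycle_iter H hO hGF i _ (core_cyc H x)).symm⟩

theorem normal_congr (hF : Continuous F) (H : TorusCycle n r F d m E f) (hOo : IsOpen O)
    (hO : cyc n F d m E ⊆ O) (hGF : ∀ y ∈ O, G y = F y) (h : NormalHyp n (F^[m]) d E) :
    NormalHyp n (G^[m]) d E := by
  have hFc : ∀ y ∈ cyc n F d m E, F y ∈ cyc n F d m E := fun y hy => by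
    have h1 := cyc_img H
    rw [← h1]
    exact mem_image_of_mem _ hy
  intro x v t h1 h2
  refine h x v t (fun k => ?_) h2
  have h3 := h1 k
  rw [tm_E, tangent_ev (iter_ev hF hOo hO hFc hGF m (core_cyc H (x k)))] at h3
  exact h3

end cycles

section final

variable {n : ℕ} {N : Type u} [MetricSpace N] [CompactSpace N]
  [ChartedSpace (V n) N] [IsManifold (𝓡 n) ∞ N] {r : ℕ∞}

theorem ind (hPERT : S_PERT.{u}) (hHF : S_HYPFIN.{u}) (hr : 1 ≤ r) (p : ℕ) :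
    ∀ (F : DiffM n N r) (Λ₀ : Set N), Q263.HS.IsHyp (V n) F.toHomeomorph Λ₀ →
    ∀ (d m : Fin p → ℕ) (E : Fin p → V n → N) (f : ∀ j, Torus (d j) ≃ₜ Torus (d j)),
    (∀ j, TorusCycle n r F (d j) (m j) (E j) (f j) ∧ TameH r (f j) ∧
      NormalHyp n (F^[m j]) (d j) (E j)) →
    (∀ i j, i ≠ j → Disjoint (cyc n F (d i) (m i) (E i)) (cyc n F (d j) (m j) (E j))) →
    (∀ j, Disjoint Λ₀ (cyc n F (d j) (m j) (E j))) →
    ChainRec F.toHomeomorph ⊆ Λ₀ ∪ ⋃ j, cyc n F (d j) (m j) (E j) →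
    ∀ U : Set (DiffM n N r), IsOpen[strongTop n N r] U → F ∈ U →
    ∃ G ∈ U, ∃ P : Set N, P.Finite ∧ P ⊆ ⋃ j, cyc n F (d j) (m j) (E j) ∧
      Q263.HS.IsHyp (V n) G.toHomeomorph (Λ₀ ∪ P) ∧ ChainRec G.toHomeomorph ⊆ Λ₀ ∪ P := by
  induction p with
  | zero =>
    intro F Λ₀ h₀ d m E f _ _ _ hCR U _ hFU
    refine ⟨F, hFU, ∅, finite_empty, empty_subset _, ?_, ?_⟩
    · rw [union_empty]
      exact h₀
    · rw [union_empty]
      intro y hy
      rcases hCR hy with h | h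
      · exact h
      · obtain ⟨j, -⟩ := mem_iUnion.1 h
        exact j.elim0
  | succ p ih =>
    intro F Λ₀ h₀ d m E f H hdis hdis₀ hCR U hU hFU
    have hΛc : IsClosed Λ₀ := by
      obtain ⟨Nm, Es, Eu, C, a, h1⟩ := h₀
      exact h1.closed
    have hΛi : F '' Λ₀ = Λ₀ := by
      obtain ⟨Nm, Es, Eu, C, a, h1⟩ := h₀
      exact h1.inv
    set K : Fin (p + 1) → Set N := fun j => cyc n F (d j) (m j) (E j) with hK
    set Z : Set N := Λ₀ ∪ ⋃ j : Fin p, K j.succ with hZ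
    have hZc : IsClosed Z := hΛc.union (isClosed_iUnion_of_finite fun j =>
      cyc_closed F.continuous (H j.succ).1)
    have hFZ : F '' Z = Z := by
      rw [hZ, image_union, hΛi, image_iUnion]
      congr 1
      exact iUnion_congr fun j => cyc_img (H j.succ).1
    have hd0 : Disjoint Z (K 0) := by
      rw [hZ, disjoint_union_left, disjoint_iUnion_left]
      exact ⟨hdis₀ 0, fun j => hdis _ _ (Fin.succ_ne_zero j)⟩
    have hCR0 : ChainRec F.toHomeomorph ⊆ Z ∪ K 0 := by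
      intro y hy
      rcases hCR hy with h | h
      · exact Or.inl (Or.inl h)
      · obtain ⟨j, hj⟩ := mem_iUnion.1 h
        rcases Fin.eq_zero_or_eq_succ j with rfl | ⟨j', rfl⟩
        · exact Or.inr hj
        · exact Or.inl (Or.inr (mem_iUnion.2 ⟨j', hj⟩))
    obtain ⟨G, P, O, hGU, hPf, hPK, hGP, hPh, hCRG, hOo, hZO, hGF⟩ :=
      step hPERT hr (H 0).1 (H 0).2.1 (H 0).2.2 hZc hFZ hd0 hCR0 hU hFU
    have hKO : ∀ j : Fin p, K j.succ ⊆ O := fun j y hy => hZO (Or.inr (mem_iUnion.2 ⟨j, hy⟩))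
    have hcyc : ∀ j : Fin p, cyc n G (d j.succ) (m j.succ) (E j.succ) = K j.succ := fun j =>
      cyc_congr (H j.succ).1 (hKO j) hGF
    have hyp0 : Q263.HS.IsHyp (V n) G.toHomeomorph Λ₀ :=
      isHyp_congr (f := F.toHomeomorph) (g := G.toHomeomorph) hOo
        (fun y hy => hZO (Or.inl hy)) hGF h₀
    have hdP : Disjoint Λ₀ P := (hdis₀ 0).mono_right hPK
    have hyp1 := hyp_union hHF hr G hyp0 hPf hGP hPh hdP
    obtain ⟨G', hG'U, P', hP'f, hP'K, hyp', hCR'⟩ := ih G (Λ₀ ∪ P) hyp1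
      (fun j => d j.succ) (fun j => m j.succ) (fun j => E j.succ) (fun j => f j.succ)
      (fun j => ⟨cycle_congr (H j.succ).1 (hKO j) hGF, (H j.succ).2.1,
        normal_congr F.continuous (H j.succ).1 hOo (hKO j) hGF (H j.succ).2.2⟩)
      (fun i j hij => by
        rw [hcyc, hcyc]
        exact hdis _ _ fun h => hij (Fin.succ_injective _ h))
      (fun j => by
        rw [hcyc, disjoint_union_left]
        exact ⟨hdis₀ j.succ, (hdis 0 j.succ (Fin.succ_ne_zero j).symm).mono_left hPK⟩)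
      (by
        intro y hy
        rcases hCRG hy with (h | h) | h
        · exact Or.inl (Or.inl h)
        · obtain ⟨j, hj⟩ := mem_iUnion.1 h
          refine Or.inr (mem_iUnion.2 ⟨j, ?_⟩)
          rw [hcyc]
          exact hj
        · exact Or.inl (Or.inr h)) U hU hGU
    refine ⟨G', hG'U, P ∪ P', hPf.union hP'f, ?_, ?_, ?_⟩
    · rintro y (h | h)
      · exact mem_iUnion.2 ⟨0, hPK h⟩
      · obtain ⟨j, hj⟩ := mem_iUnion.1 (hP'K h)
        rw [hcyc] at hj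
        exact mem_iUnion.2 ⟨j.succ, hj⟩
    · rw [← union_assoc]
      exact hyp'
    · rw [← union_assoc]
      exact hCR'

/-- **Density of Axiom A without cycles.** -/
theorem main (hPERT : S_PERT.{u}) (hHF : S_HYPFIN.{u}) (hr : 1 ≤ r) (F : DiffM n N r)
    (Λ₀ : Set N) (h₀ : Q263.HS.IsHyp (V n) F.toHomeomorph Λ₀) (h : NormallyCovered n r F Λ₀)
    (U : Set (DiffM n N r)) (hU : IsOpen[strongTop n N r] U) (hFU : F ∈ U) :
    ∃ G ∈ U, Q263.HS.AxiomA (V n) G.toHomeomorph ∧ NoCycle G.toHomeomorph ∧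
      ChainRec G.toHomeomorph = Omega G.toHomeomorph ∧
      (Omega G.toHomeomorph \ Λ₀).Finite := by
  obtain ⟨p, d, m, E, f, H, hdis, hdis₀, hCR⟩ := h
  obtain ⟨G, hGU, P, hP, -, hyp, hCRG⟩ := ind hPERT hHF hr p F Λ₀ h₀ d m E f H hdis hdis₀ hCR U hU
    hFU
  obtain ⟨h1, h2, h3⟩ := Q263.HS.chain_hyp Q263.HR.tr Pool.Agent.Q223.HS.fl Q263.HS.ang
    Pool.Agent.Q223.HS.cont Q263.HS.low Q263.HR.chain Q263.HS.crr G.toHomeomorph
    (G.contMDiff.of_le (by exact_mod_cast hr)) (G.symm.contMDiff.of_le (by exact_mod_cast hr))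
    hyp hCRG
  refine ⟨G, hGU, h1, h2, h3, hP.subset ?_⟩
  rintro y ⟨hy, hy0⟩
  rw [← h3] at hy
  rcases hCRG hy with h | h
  · exact absurd h hy0
  · exact h

end final

end Q263.DH
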