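import Mathlib
import Pool.Agent.Q263.DH.Def2
import Pool.Agent.Q263.DH.Main
import Pool.Agent.Q192.FT.Flags
import Pool.Agent.Q192.FT.Att

/-! Finitely many attractors. -/

set_option autoImplicit false
set_option linter.unusedSectionVars false

open scoped Manifold ContDiff Topology
open Set Filter Metric MeasureTheory Pool.Agent.H718R2.G Pool.Agent.H728R2.OS
open Pool.Agent.H728R2.FA (omegaLim FiniteAttractors)
open Pool.Agent.Q192.FT (emb cyc Approx orb orb_img orb_disj fin_attr tor_surj' cyc_eq)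
open Q263.IC

universe u

namespace Q263.DH

section fam

variable {X : Type u} [MetricSpace X] [CompactSpace X]

/-- families indexed by a finite type -/
theorem attractors_of_fam (g : X ≃ₜ X) {ι : Type} [Finite ι] (S : ι → Set X)
    (hcl : ∀ i, IsClosed (S i)) (hinv : ∀ i, g '' S i = S i)
    (hdis : ∀ i j, i ≠ j → Disjoint (S i) (S j))
    (htr : ∀ i, ∃ x ∈ S i, S i ⊆ closure (range fun k : ℕ => g^[k] x))
    (hC : ChainRec g ⊆ ⋃ i, S i) :
    ∀ (_ : MeasurableSpace X) (μ : Measure X), FiniteAttractors μ g := by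
  obtain ⟨c, ⟨e⟩⟩ := Finite.exists_equiv_fin ι
  have hcov : ∀ p, ∃ i, omegaLim g p ⊆ S (e.symm i) := by
    intro p
    refine Pool.Agent.Y318.MH.omegaLim_one g (fun i => S (e.symm i)) (fun i => hcl _)
      (fun i => hinv _) (fun i j hij => hdis _ _ fun h => hij (e.symm.injective h)) p ?_
    intro y hy
    have h1 : y ∈ Omega g := by
      intro U hU
      obtain ⟨a, -, ha⟩ := hy U hU 0
      obtain ⟨b, hb, hb'⟩ := hy U hU (a + 1)
      refine ⟨b - a, by omega, g^[b] p, ⟨g^[a] p, ha, ?_⟩, hb'⟩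
      rw [← Function.iterate_add_apply, Nat.sub_add_cancel (by omega)]
    have h2 : y ∈ ChainRec g := omega_subset_chainRec g h1
    obtain ⟨i, hi⟩ := mem_iUnion.1 (hC h2)
    exact mem_iUnion.2 ⟨e i, by rw [e.symm_apply_apply]; exact hi⟩
  exact (fin_attr g (fun i => S (e.symm i)) (fun i => hinv _) (fun i => htr _) ∅ finite_empty
    (fun y hy => absurd hy (notMem_empty y)) (fun p => Or.inl (hcov p))).2

theorem fewPieces_of_finite {g : X ≃ₜ X} (h : (ChainRec g).Finite) : FewPieces g := by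
  have hper := per_of_finite h
  have hOf : (orb g '' ChainRec g).Finite := h.image _
  have := hOf.to_subtype
  obtain ⟨c, ⟨e⟩⟩ := Finite.exists_equiv_fin (orb g '' ChainRec g)
  have hS : ∀ i, ∃ y ∈ ChainRec g, ((e.symm i).1 : Set X) = orb g y := by
    intro i
    obtain ⟨y, hy, h⟩ := (e.symm i).2
    exact ⟨y, hy, h.symm⟩
  have hfinorb : ∀ y ∈ ChainRec g, (orb g y).Finite := by
    intro y hy
    refine h.subset ?_
    rintro _ ⟨k, rfl⟩
    induction k with
    | zero => exact hy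
    | succ k ih =>
      show g^[k + 1] y ∈ ChainRec g
      rw [Function.iterate_succ_apply']
      exact chainRec_fwd ih
  refine ⟨c, fun i => (e.symm i).1, ⟨fun i => ?_, fun i => ?_, fun i j hij => ?_, fun i => ?_⟩, ?_⟩
  · obtain ⟨y, hy, h1⟩ := hS i
    rw [h1]
    exact (hfinorb y hy).isClosed
  · obtain ⟨y, hy, h1⟩ := hS i
    obtain ⟨k, hk, h2⟩ := hper hy
    rw [h1]
    exact orb_img hk h2
  · obtain ⟨y, hy, h1⟩ := hS i
    obtain ⟨z, hz, h2⟩ := hS j
    have h3 : orb g y ≠ orb g z := by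
      intro h4
      apply hij
      apply e.symm.injective
      exact Subtype.ext (by rw [h1, h2, h4])
    show Disjoint (e.symm i).1 (e.symm j).1
    rw [h1, h2]
    exact orb_disj (hper hy) (hper hz) h3
  · obtain ⟨y, hy, h1⟩ := hS i
    show ∃ x ∈ (e.symm i).1, (e.symm i).1 ⊆ _
    rw [h1]
    exact ⟨y, ⟨0, rfl⟩, subset_closure⟩
  · intro y hy
    refine mem_iUnion.2 ⟨e ⟨orb g y, y, hy, rfl⟩, ?_⟩
    show y ∈ (e.symm (e ⟨orb g y, y, hy, rfl⟩)).1
    rw [e.symm_apply_apply]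
    exact ⟨0, rfl⟩

end fam

section ind

variable {n : ℕ} {N : Type u} [MetricSpace N] [CompactSpace N]
  [ChartedSpace (V n) N] [IsManifold (𝓡 n) ∞ N] {r : ℕ∞}

theorem ind0 (hPERT : S_PERT.{u}) (hr : 1 ≤ r) (p : ℕ) :
    ∀ (F : DiffM n N r) (Λ₀ : Set N), IsClosed Λ₀ → F '' Λ₀ = Λ₀ →
    ∀ (d m : Fin p → ℕ) (E : Fin p → V n → N) (f : ∀ j, Torus (d j) ≃ₜ Torus (d j))
    (Q : ∀ j, (Torus (d j) ≃ₜ Torus (d j)) → Prop),
    (∀ j, TorusCycle n r F (d j) (m j) (E j) (f j) ∧ Approx r (f j) (Q j) ∧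
      NormalHyp n (F^[m j]) (d j) (E j)) →
    (∀ i j, i ≠ j → Disjoint (cyc n F (d i) (m i) (E i)) (cyc n F (d j) (m j) (E j))) →
    (∀ j, Disjoint Λ₀ (cyc n F (d j) (m j) (E j))) →
    ChainRec F.toHomeomorph ⊆ Λ₀ ∪ ⋃ j, cyc n F (d j) (m j) (E j) →
    ∀ U : Set (DiffM n N r), IsOpen[strongTop n N r] U → F ∈ U →
    ∃ G ∈ U, ∃ g : ∀ j, Torus (d j) ≃ₜ Torus (d j), (∀ j, Q j (g j) ∧
      TorusCycle n r G (d j) (m j) (E j) (g j) ∧
      cyc n G (d j) (m j) (E j) = cyc n F (d j) (m j) (E j)) ∧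
      (∃ O, IsOpen O ∧ Λ₀ ⊆ O ∧ ∀ y ∈ O, G y = F y) ∧
      ChainRec G.toHomeomorph ⊆ Λ₀ ∪ ⋃ j, cyc n F (d j) (m j) (E j) := by
  induction p with
  | zero =>
    intro F Λ₀ _ _ d m E f Q _ _ _ hCR U _ hFU
    exact ⟨F, hFU, fun j => j.elim0, fun j => j.elim0, ⟨univ, isOpen_univ, subset_univ _,
      fun _ _ => rfl⟩, hCR⟩
  | succ p ih =>
    intro F Λ₀ hΛc hΛi d m E f Q H hdis hdis₀ hCR U hU hFU
    set K : Fin (p + 1) → Set N := fun j => cyc n F (d j) (m j) (E j) with hK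
    set Z : Set N := Λ₀ ∪ ⋃ j : Fin p, K j.succ with hZ
    have hZc : IsClosed Z := hΛc.union (isClosed_iUnion_of_finite fun j =>
      cyc_closed F.continuous (H j.succ).1)
    have hFZ : F '' Z = Z := by
      rw [hZ, image_union, hΛi, image_iUnion]
      congr 1
      exact iUnion_congr fun j => cyc_img (H j.succ).1
    have hd0 : Disjoint Z (K 0) := by
      rw [hZ, disjoint_union_left, disjoint_iUnion_left]
      exact ⟨hdis₀ 0, fun j => hdis _ _ (Fin.succ_ne_zero j)⟩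
    have hCR0 : ChainRec F.toHomeomorph ⊆ Z ∪ K 0 := by
      intro y hy
      rcases hCR hy with h | h
      · exact Or.inl (Or.inl h)
      · obtain ⟨j, hj⟩ := mem_iUnion.1 h
        rcases Fin.eq_zero_or_eq_succ j with rfl | ⟨j', rfl⟩
        · exact Or.inr hj
        · exact Or.inl (Or.inr (mem_iUnion.2 ⟨j', hj⟩))
    obtain ⟨G, g₀, O, hGU, hg₀, HG, hcycG, -, hCRG, hOo, hZO, hGF⟩ :=
      step0 hPERT hr (H 0).1 (Q 0) (H 0).2.1 (H 0).2.2 hZc hFZ hd0 hCR0 hU hFU
    have hKO : ∀ j : Fin p, K j.succ ⊆ O := fun j y hy => hZO (Or.inr (mem_iUnion.2 ⟨j, hy⟩))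
    have hcyc : ∀ j : Fin p, cyc n G (d j.succ) (m j.succ) (E j.succ) = K j.succ := fun j =>
      cyc_congr (H j.succ).1 (hKO j) hGF
    have hGK0 : G '' K 0 = K 0 := by
      have h1 := cyc_img HG
      rwa [hcycG] at h1
    have hGΛ : G '' Λ₀ = Λ₀ := by
      have h1 : G '' Λ₀ = F '' Λ₀ := image_congr fun x hx => hGF x (hZO (Or.inl hx))
      rw [h1, hΛi]
    obtain ⟨G', hG'U, g, hg, ⟨O', hO'o, hO', hG'G⟩, hCR'⟩ := ih G (Λ₀ ∪ K 0)
      (hΛc.union (cyc_closed F.continuous (H 0).1))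
      (by rw [image_union, hGΛ, hGK0])
      (fun j => d j.succ) (fun j => m j.succ) (fun j => E j.succ) (fun j => f j.succ)
      (fun j => Q j.succ)
      (fun j => ⟨cycle_congr (H j.succ).1 (hKO j) hGF, (H j.succ).2.1,
        normal_congr F.continuous (H j.succ).1 hOo (hKO j) hGF (H j.succ).2.2⟩)
      (fun i j hij => by
        rw [hcyc, hcyc]
        exact hdis _ _ fun h => hij (Fin.succ_injective _ h))
      (fun j => by
        rw [hcyc, disjoint_union_left]
        exact ⟨hdis₀ j.succ, hdis 0 j.succ (Fin.succ_ne_zero j).symm⟩)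
      (by
        intro y hy
        rcases hCRG hy with ⟨-, h | h⟩ | h
        · exact Or.inl (Or.inl h)
        · obtain ⟨j, hj⟩ := mem_iUnion.1 h
          refine Or.inr (mem_iUnion.2 ⟨j, ?_⟩)
          rw [hcyc]
          exact hj
        · exact Or.inl (Or.inr h)) U hU hGU
    have hK0O' : cyc n G (d 0) (m 0) (E 0) ⊆ O' := by
      rw [hcycG]
      exact fun y hy => hO' (Or.inr hy)
    refine ⟨G', hG'U, Fin.cases g₀ g, fun j => ?_, ⟨O ∩ O', hOo.inter hO'o,
      fun y hy => ⟨hZO (Or.inl hy), hO' (Or.inl hy)⟩, fun y hy => by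
        rw [hG'G y hy.2, hGF y hy.1]⟩, ?_⟩
    · rcases Fin.eq_zero_or_eq_succ j with rfl | ⟨j', rfl⟩
      · exact ⟨hg₀, cycle_congr HG hK0O' hG'G, (cyc_congr HG hK0O' hG'G).trans hcycG⟩
      · obtain ⟨h1, h2, h3⟩ := hg j'
        exact ⟨h1, h2, h3.trans (hcyc j')⟩
    · intro y hy
      rcases hCR' hy with (h | h) | h
      · exact Or.inl h
      · exact Or.inr (mem_iUnion.2 ⟨0, h⟩)
      · obtain ⟨j, hj⟩ := mem_iUnion.1 h
        rw [hcyc] at hj
        exact Or.inr (mem_iUnion.2 ⟨j.succ, hj⟩)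

end ind

section sat

variable {N : Type u} [MetricSpace N] [CompactSpace N] {d m : ℕ}

/-- the saturation of a set of the core -/
def sat (G : N → N) (m : ℕ) (θ : Torus d → N) (S : Set (Torus d)) : Set N :=
  ⋃ i : Fin m, (fun t => G^[(i : ℕ)] (θ t)) '' S

theorem sat_closed {G : N → N} (hG : Continuous G) {θ : Torus d → N} (hθ : Continuous θ)
    {S : Set (Torus d)} (hS : IsClosed S) : IsClosed (sat G m θ S) :=
  isClosed_iUnion_of_finite fun i =>
    (hS.isCompact.image ((hG.iterate i).comp hθ)).isClosed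

theorem sat_inv {G : N → N} (hm : 1 ≤ m) {θ : Torus d → N} {g : Torus d → Torus d}
    (hdyn : ∀ t, G^[m] (θ t) = θ (g t)) {S : Set (Torus d)} (hS : g '' S = S) :
    G '' sat G m θ S = sat G m θ S := by
  apply subset_antisymm
  · rintro _ ⟨y, hy, rfl⟩
    obtain ⟨i, t, ht, rfl⟩ := mem_iUnion.1 hy
    rcases Nat.lt_or_ge ((i : ℕ) + 1) m with h1 | h1
    · exact mem_iUnion.2 ⟨⟨i + 1, h1⟩, t, ht, Function.iterate_succ_apply' _ _ _⟩
    · have e : (i : ℕ) + 1 = m := by have := i.2; omega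
      refine mem_iUnion.2 ⟨⟨0, hm⟩, g t, ?_, ?_⟩
      · rw [← hS]
        exact mem_image_of_mem _ ht
      · show θ (g t) = G (G^[(i : ℕ)] (θ t))
        rw [← Function.iterate_succ_apply' G, Nat.succ_eq_add_one, e, hdyn]
  · intro y hy
    obtain ⟨i, t, ht, rfl⟩ := mem_iUnion.1 hy
    rcases Nat.eq_zero_or_pos (i : ℕ) with h0 | h0
    · rw [← hS] at ht
      obtain ⟨t', ht', rfl⟩ := ht
      refine ⟨G^[m - 1] (θ t'), mem_iUnion.2 ⟨⟨m - 1, by omega⟩, t', ht', rfl⟩, ?_⟩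
      show G (G^[m - 1] (θ t')) = G^[(i : ℕ)] (θ (g t'))
      rw [← Function.iterate_succ_apply' G, h0, Nat.succ_eq_add_one, Nat.sub_add_cancel hm, hdyn]
      rfl
    · refine ⟨G^[(i : ℕ) - 1] (θ t), mem_iUnion.2 ⟨⟨(i : ℕ) - 1, by have := i.2; omega⟩, t, ht,
        rfl⟩, ?_⟩
      show G (G^[(i : ℕ) - 1] (θ t)) = G^[(i : ℕ)] (θ t)
      rw [← Function.iterate_succ_apply' G, Nat.succ_eq_add_one, Nat.sub_add_cancel h0]

theorem sat_trans {G : N → N} (hG : Continuous G) (hm : 1 ≤ m) {θ : Torus d → N}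
    (hθ : Continuous θ) {g : Torus d → Torus d} (hdyn : ∀ t, G^[m] (θ t) = θ (g t))
    {S : Set (Torus d)} (hS : ∃ x ∈ S, S ⊆ closure (range fun k : ℕ => g^[k] x)) :
    ∃ x ∈ sat G m θ S, sat G m θ S ⊆ closure (range fun k : ℕ => G^[k] x) := by
  obtain ⟨x, hx, hd⟩ := hS
  refine ⟨θ x, mem_iUnion.2 ⟨⟨0, hm⟩, x, hx, rfl⟩, ?_⟩
  have hk : ∀ k : ℕ, G^[m * k] (θ x) = θ (g^[k] x) := by
    intro k
    induction k with
    | zero => rfl
    | succ k ih =>
      rw [Nat.mul_succ, add_comm, Function.iterate_add_apply, ih, hdyn,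
        ← Function.iterate_succ_apply' g]
  intro y hy
  obtain ⟨i, t, ht, rfl⟩ := mem_iUnion.1 hy
  have hc : Continuous fun t => G^[(i : ℕ)] (θ t) := (hG.iterate i).comp hθ
  have h1 := image_closure_subset_closure_image hc (mem_image_of_mem _ (hd ht))
  refine closure_mono ?_ h1
  rintro _ ⟨_, ⟨k, rfl⟩, rfl⟩
  refine ⟨(i : ℕ) + m * k, ?_⟩
  show G^[(i : ℕ) + m * k] (θ x) = G^[(i : ℕ)] (θ (g^[k] x))
  rw [Function.iterate_add_apply, hk]

theorem sat_disj {G : N → N} (hGi : Function.Injective G) {θ : Torus d → N}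
    (hθi : Function.Injective θ)
    (hdis : ∀ i, 0 < i → i < m → ∀ s t, G^[i] (θ s) ≠ θ t) {S S' : Set (Torus d)}
    (h : Disjoint S S') : Disjoint (sat G m θ S) (sat G m θ S') := by
  rw [Set.disjoint_left]
  intro y hy hy'
  obtain ⟨i, t, ht, rfl⟩ := mem_iUnion.1 hy
  obtain ⟨i', t', ht', heq⟩ := mem_iUnion.1 hy'
  have heq' : G^[(i' : ℕ)] (θ t') = G^[(i : ℕ)] (θ t) := heq
  rcases lt_trichotomy (i : ℕ) (i' : ℕ) with h1 | h1 | h1
  · obtain ⟨e, he⟩ := Nat.exists_eq_add_of_lt h1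
    have := i'.2
    rw [he, add_assoc, Function.iterate_add_apply] at heq'
    exact hdis (e + 1) (by omega) (by omega) _ _ (hGi.iterate _ heq')
  · rw [← h1] at heq'
    have h2 := hθi (hGi.iterate _ heq')
    rw [h2] at ht'
    exact Set.disjoint_left.1 h ht ht'
  · obtain ⟨e, he⟩ := Nat.exists_eq_add_of_lt h1
    have := i.2
    rw [he, add_assoc, Function.iterate_add_apply] at heq'
    exact hdis (e + 1) (by omega) (by omega) _ _ (hGi.iterate _ heq').symm

end sat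

section final

variable {n : ℕ} {N : Type u} [MetricSpace N] [CompactSpace N]
  [ChartedSpace (V n) N] [IsManifold (𝓡 n) ∞ N] {r : ℕ∞}

theorem tameF_approx {d : ℕ} (hr : 1 ≤ r) {f : Torus d ≃ₜ Torus d} (hf : TameF r f) :
    Approx r f FewPieces := by
  have key : Approx r f (fun g => (ChainRec g).Finite) → Approx r f FewPieces := by
    intro h
    refine ⟨h.1, fun k hk ε hε => ?_⟩
    obtain ⟨g, h1, h2, h3⟩ := h.2 k hk ε hε
    exact ⟨g, h1, h2, fewPieces_of_finite h3⟩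
  rcases hf with hf | ⟨W, hf⟩ | h1
  · exact key (Pool.Agent.Q192.FT.approx_flag hr hf)
  · exact key (Pool.Agent.Q192.FT.approx_linear hr hf)
  · exact h1

/-- **Finitely many attractors near diffeomorphisms with normally hyperbolic tori.** -/
theorem attractors (hPERT : S_PERT.{u}) (hr : 1 ≤ r) (F : DiffM n N r)
    (h : AttractorCovered n r F) (U : Set (DiffM n N r)) (hU : IsOpen[strongTop n N r] U)
    (hFU : F ∈ U) :
    ∃ G ∈ U, ∀ (_ : MeasurableSpace N) (μ : Measure N), FiniteAttractors μ G := by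
  obtain ⟨l, M, p, d, m, E, f, hM, H, hdis, hdisM, hCR⟩ := h
  set Λ₀ : Set N := ⋃ i, M i with hΛ
  have hΛc : IsClosed Λ₀ := isClosed_iUnion_of_finite hM.closed
  have hΛi : F '' Λ₀ = Λ₀ := by
    rw [hΛ, image_iUnion]
    exact iUnion_congr hM.inv
  obtain ⟨G, hGU, g, hg, ⟨O, hO, hΛO, hGF⟩, hCRG⟩ := ind0 hPERT hr p F Λ₀ hΛc hΛi d m E f
    (fun _ => FewPieces) (fun j => ⟨(H j).1, tameF_approx hr (H j).2.1, (H j).2.2⟩) hdis
    (fun j => by
      rw [hΛ, disjoint_iUnion_left]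
      exact fun i => hdisM i j) hCR U hU hFU
  refine ⟨G, hGU, ?_⟩
  choose lS S hS hSC using fun j => (hg j).1
  choose θ hθ hθi hθE using fun j => exists_theta (hg j).2.1.le (hg j).2.1.toTube
  set K : Fin p → Set N := fun j => cyc n F (d j) (m j) (E j) with hK
  have hcyc : ∀ j, cyc n G (d j) (m j) (E j) = K j := fun j => (hg j).2.2
  have hKc : ∀ j, IsClosed (K j) := fun j => cyc_closed F.continuous (H j).1
  have hsatK : ∀ j s, sat G (m j) (θ j) s ⊆ K j := by
    intro j s y hy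
    obtain ⟨i, t, -, rfl⟩ := mem_iUnion.1 hy
    rw [← hcyc j, cyc_eq (hθE j)]
    exact mem_iUnion.2 ⟨i, t, mem_univ _, rfl⟩
  have hMΛ : ∀ i, M i ⊆ Λ₀ := fun i => subset_iUnion M i
  have hGM : ∀ i, ∀ x ∈ M i, G x = F x := fun i x hx => hGF x (hΛO (hMΛ i hx))
  have hFM : ∀ i, ∀ x ∈ M i, F x ∈ M i := fun i x hx => by
    rw [← hM.inv i]
    exact mem_image_of_mem _ hx
  refine attractors_of_fam G.toHomeomorph (ι := Fin l ⊕ (Σ j : Fin p, Fin (lS j)))
    (Sum.elim M fun q => sat G (m q.1) (θ q.1) (S q.1 q.2)) ?_ ?_ ?_ ?_ ?_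
  · rintro (i | ⟨j, s⟩)
    · exact hM.closed i
    · exact sat_closed G.continuous (hθ j) ((hS j).closed s)
  · rintro (i | ⟨j, s⟩)
    · have h1 : G '' M i = F '' M i := image_congr (hGM i)
      exact h1.trans (hM.inv i)
    · exact sat_inv (hg j).2.1.pos (theta_dyn (hg j).2.1 (hθE j)) ((hS j).inv s)
  · rintro (i | ⟨j, s⟩) (i' | ⟨j', s'⟩) hne
    · exact hM.dis i i' fun h => hne (by rw [h])
    · exact (hdisM i j').mono_right (hsatK j' _)
    · exact ((hdisM i' j).mono_right (hsatK j _)).symm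
    · by_cases hj : j = j'
      · subst hj
        have hss : s ≠ s' := fun h => hne (by rw [h])
        exact sat_disj G.injective (hθi j) (theta_dis (hg j).2.1 (hθE j))
          ((hS j).dis s s' hss)
      · exact (hdis j j' hj).mono (hsatK j _) (hsatK j' _)
  · rintro (i | ⟨j, s⟩)
    · obtain ⟨x, hx, hd⟩ := hM.trans i
      refine ⟨x, hx, ?_⟩
      have e : (fun k : ℕ => G.toHomeomorph^[k] x) = fun k : ℕ => F^[k] x := by
        funext k
        have key : G^[k] x = F^[k] x ∧ F^[k] x ∈ M i := by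
          induction k with
          | zero => exact ⟨rfl, hx⟩
          | succ k ih =>
            rw [Function.iterate_succ_apply', Function.iterate_succ_apply', ih.1]
            exact ⟨hGM i _ ih.2, hFM i _ ih.2⟩
        exact key.1
      rw [e]
      exact hd
    · exact sat_trans G.continuous (hg j).2.1.pos (hθ j) (theta_dyn (hg j).2.1 (hθE j))
        ((hS j).trans s)
  · intro y hy
    rcases hCRG hy with h1 | h1
    · obtain ⟨i, hi⟩ := mem_iUnion.1 h1
      exact mem_iUnion.2 ⟨Sum.inl i, hi⟩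
    · obtain ⟨j, hj⟩ := mem_iUnion.1 h1
      have hZc : IsClosed (Λ₀ ∪ ⋃ j' : Fin p, ⋃ _ : j' ≠ j, K j') :=
        hΛc.union (isClosed_iUnion_of_finite fun j' => isClosed_iUnion_of_finite fun _ => hKc j')
      obtain ⟨i, hi, t, ht, rfl⟩ := chain_cyc (hg j).2.1
        (Z := Λ₀ ∪ ⋃ j' : Fin p, ⋃ _ : j' ≠ j, K j') hZc (by
          rw [hcyc, disjoint_union_left, disjoint_iUnion₂_left, hΛ, disjoint_iUnion_left]
          exact ⟨fun i => hdisM i j, fun j' hj' => hdis j' j hj'⟩)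
        (by
          intro w hw
          rw [hcyc]
          rcases hCRG hw with h2 | h2
          · exact Or.inl (Or.inl h2)
          · obtain ⟨j', hj'⟩ := mem_iUnion.1 h2
            by_cases hjj : j' = j
            · rw [hjj] at hj'
              exact Or.inr hj'
            · exact Or.inl (Or.inr (mem_iUnion₂.2 ⟨j', hjj, hj'⟩)))
        (hθ j) (hθi j) (hθE j) hy (by rw [hcyc]; exact hj)
      obtain ⟨s, hs⟩ := mem_iUnion.1 (hSC j ht)
      exact mem_iUnion.2 ⟨Sum.inr ⟨j, s⟩, mem_iUnion.2 ⟨⟨i, hi⟩, t, hs, rfl⟩⟩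

end final

end Q263.DH
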